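import Pool.Agent.LHS.Stmts

/-!
# Elementary properties of the coordinates of a Legendrian knot
-/

namespace LHS

open Set LH LC Filter
open scoped ContDiff Topology

namespace BAS

theorem hasDeriv (Λ : LegKnot) (u : ℝ) : HasDerivAt Λ.γ (deriv Λ.γ u) u :=
  ((Λ.smooth.differentiable (by simp)) u).hasDerivAt

theorem hx (Λ : LegKnot) (u : ℝ) : HasDerivAt Λ.x (deriv Λ.γ u).1 u := by
  have h := (hasFDerivAt_fst (𝕜 := ℝ) (E := ℝ) (F := ℝ × ℝ) (p := Λ.γ u)).comp_hasDerivAt u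
    (hasDeriv Λ u)
  exact h

theorem h2 (Λ : LegKnot) (u : ℝ) : HasDerivAt (fun v => (Λ.γ v).2) (deriv Λ.γ u).2 u := by
  have h := (hasFDerivAt_snd (𝕜 := ℝ) (E := ℝ) (F := ℝ × ℝ) (p := Λ.γ u)).comp_hasDerivAt u
    (hasDeriv Λ u)
  exact h

theorem hy (Λ : LegKnot) (u : ℝ) : HasDerivAt Λ.y (deriv Λ.γ u).2.1 u := by
  have h := (hasFDerivAt_fst (𝕜 := ℝ) (E := ℝ) (F := ℝ) (p := (Λ.γ u).2)).comp_hasDerivAt u
    (h2 Λ u)
  exact h

theorem hz (Λ : LegKnot) (u : ℝ) : HasDerivAt (zc Λ) (deriv Λ.γ u).2.2 u := by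
  have h := (hasFDerivAt_snd (𝕜 := ℝ) (E := ℝ) (F := ℝ) (p := (Λ.γ u).2)).comp_hasDerivAt u
    (h2 Λ u)
  exact h

theorem leg (Λ : LegKnot) (u : ℝ) : (deriv Λ.γ u).2.2 = Λ.y u * (deriv Λ.γ u).1 := by
  have h := Λ.legendrian u
  unfold alpha at h
  have h' : (deriv Λ.γ u).2.2 - Λ.y u * (deriv Λ.γ u).1 = 0 := h
  linarith

end BAS

theorem t_BAS : Stmt_BAS := by
  intro Λ
  have e1 : ∀ u, deriv Λ.x u = (deriv Λ.γ u).1 := fun u => (BAS.hx Λ u).deriv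
  have e2 : ∀ u, deriv Λ.y u = (deriv Λ.γ u).2.1 := fun u => (BAS.hy Λ u).deriv
  have e3 : ∀ u, Λ.y u * deriv Λ.x u = (deriv Λ.γ u).2.2 := fun u => by
    rw [e1 u, BAS.leg Λ u]
  refine ⟨contDiff_fst.comp Λ.smooth, contDiff_fst.comp (contDiff_snd.comp Λ.smooth),
    contDiff_snd.comp (contDiff_snd.comp Λ.smooth), fun u => ?_, fun u => ?_, fun u => ?_,
    fun u => ?_, fun u => ?_, fun u => ?_, fun u => ?_, fun u => ?_⟩
  · unfold LegKnot.x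
    rw [Λ.periodic u]
  · unfold LegKnot.y
    rw [Λ.periodic u]
  · unfold zc
    rw [Λ.periodic u]
  · rw [e1 u]; exact BAS.hx Λ u
  · rw [e2 u]; exact BAS.hy Λ u
  · rw [e3 u]; exact BAS.hz Λ u
  · by_contra hcon
    rw [not_or, not_not, not_not] at hcon
    obtain ⟨ha, hb⟩ := hcon
    apply Λ.immersion u
    rw [e1 u] at ha
    rw [e2 u] at hb
    have hc : (deriv Λ.γ u).2.2 = 0 := by rw [BAS.leg Λ u, ha, mul_zero]
    exact Prod.ext ha (Prod.ext hb hc)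
  · have h : (deriv Λ.x u, deriv Λ.y u, Λ.y u * deriv Λ.x u) = deriv Λ.γ u := by
      rw [e3 u, e1 u, e2 u]
    rw [h]
    exact BAS.hasDeriv Λ u

end LHS
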