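import Pool.Agent.LHS.Stmts

/-!
# BD1: uniform upper bounds of a family of knots
-/

namespace LHS

open Set LH LC Filter
open scoped ContDiff Topology

namespace BD1

/-- A periodic continuous family is bounded. -/
theorem bound (f : ℝ → ℝ → ℝ)
    (hf : ContinuousOn (fun q : ℝ × ℝ => f q.1 q.2) (Icc 0 1 ×ˢ univ))
    (hp : ∀ t ∈ Icc (0 : ℝ) 1, ∀ u, f t (u + 1) = f t u) :
    ∃ C : ℝ, ∀ t ∈ Icc (0 : ℝ) 1, ∀ u, |f t u| ≤ C := by
  have hc : IsCompact (Icc (0 : ℝ) 1 ×ˢ Icc (0 : ℝ) 1) := isCompact_Icc.prod isCompact_Icc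
  obtain ⟨C, hC⟩ := hc.exists_bound_of_continuousOn
    (hf.mono (prod_mono (Subset.refl _) (subset_univ _)))
  refine ⟨C, fun t ht u => ?_⟩
  have hper : Function.Periodic (f t) 1 := fun u => hp t ht u
  have h1 : f t (Int.fract u) = f t u := by
    have h5 := hper.sub_zsmul_eq (x := u) ⌊u⌋
    rw [zsmul_one] at h5
    exact h5
  have h2 := hC (t, Int.fract u) ⟨ht, Int.fract_nonneg u, (Int.fract_lt_one u).le⟩
  rw [← h1]
  simpa [Real.norm_eq_abs] using h2

theorem per_deriv (f : ℝ → ℝ) (h : ∀ u, f (u + 1) = f u) (u : ℝ) : deriv f (u + 1) = deriv f u := by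
  have h1 : (fun u => f (u + 1)) = f := funext h
  have h2 := deriv_comp_add_const (f := f) 1 u
  rw [h1] at h2
  exact h2.symm

/-- Lipschitz bound. -/
theorem lip (f : ℝ → ℝ) (hf : Differentiable ℝ f) (C : ℝ) (h : ∀ u, |deriv f u| ≤ C) (u v : ℝ) :
    |f u - f v| ≤ C * |u - v| := by
  have := Convex.norm_image_sub_le_of_norm_deriv_le (f := f) (C := C) (s := univ) (x := v) (y := u)
    (fun x _ => hf x) (fun x _ => by simpa [Real.norm_eq_abs] using h x) convex_univ
    (mem_univ _) (mem_univ _)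
  simpa [Real.norm_eq_abs] using this

end BD1

open BD1

/-- BD1 -/
theorem t_BD1 : Stmt_BD1 := by
  intro hB hC K hK
  obtain ⟨-, cx, cy, -, cdx, cdy, cddx⟩ := hC K hK
  have hper : ∀ t, (∀ u, (K t).x (u + 1) = (K t).x u) ∧ (∀ u, (K t).y (u + 1) = (K t).y u) := by
    intro t
    obtain ⟨-, -, -, h1, h2, -⟩ := hB (K t)
    exact ⟨h1, h2⟩
  have hsx : ∀ t, ContDiff ℝ ∞ (K t).x := fun t => (hB (K t)).1
  have hsy : ∀ t, ContDiff ℝ ∞ (K t).y := fun t => (hB (K t)).2.1
  have hsdx : ∀ t, ContDiff ℝ ∞ (deriv (K t).x) := by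
    intro t
    exact (contDiff_infty_iff_deriv.1 (hsx t)).2
  obtain ⟨C1, h1⟩ := bound (fun t u => (K t).y u) cy (fun t _ u => (hper t).2 u)
  obtain ⟨C2, h2⟩ := bound (fun t u => deriv (K t).x u) cdx
    (fun t _ u => per_deriv _ (hper t).1 u)
  obtain ⟨C3, h3⟩ := bound (fun t u => deriv (K t).y u) cdy
    (fun t _ u => per_deriv _ (hper t).2 u)
  obtain ⟨C4, h4⟩ := bound (fun t u => deriv (deriv (K t).x) u) cddx
    (fun t _ u => per_deriv _ (per_deriv _ (hper t).1) u)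
  refine ⟨max 1 (max (max C1 C2) (max C3 C4)), le_max_left _ _, fun t ht => ⟨?_, ?_, ?_, ?_⟩⟩
  · intro u
    exact (h1 t ht u).trans (by simp)
  · intro u v
    exact lip _ ((hsx t).differentiable (by simp)) _ (fun w => (h2 t ht w).trans (by simp)) u v
  · intro u v
    exact lip _ ((hsy t).differentiable (by simp)) _ (fun w => (h3 t ht w).trans (by simp)) u v
  · intro u v
    exact lip _ ((hsdx t).differentiable (by simp)) _ (fun w => (h4 t ht w).trans (by simp)) u v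

end LHS
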