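import Pool.Agent.LHS.Stmts

/-!
# Module BD2: uniform lower bound of `max(|x'|, |y'|)`
-/

namespace LHS

open Set LH LC Filter
open scoped ContDiff Topology

namespace BD2

/-- The derivative of a `1`-periodic function is `1`-periodic. -/
lemma deriv_periodic {f : ℝ → ℝ} (h : ∀ u, f (u + 1) = f u) : Function.Periodic (deriv f) 1 := by
  intro u
  have h1 : (fun v => f (v + 1)) = f := funext h
  have h2 : deriv (fun v => f (v + 1)) u = deriv f (u + 1) := deriv_comp_add_const f 1 u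
  rw [h1] at h2
  exact h2.symm

/-- The value of the derivative at the fractional part. -/
lemma deriv_fract {f : ℝ → ℝ} (h : ∀ u, f (u + 1) = f u) (u : ℝ) :
    deriv f (Int.fract u) = deriv f u := by
  have := (deriv_periodic h).sub_int_mul_eq (x := u) ⌊u⌋
  rw [mul_one] at this
  exact this

end BD2

theorem t_BD2 : Stmt_BD2 := by
  intro hBAS hCTN K hK
  obtain ⟨-, -, -, -, hx, hy, -⟩ := hCTN K hK
  have hsub : (Icc (0 : ℝ) 1 ×ˢ Icc (0 : ℝ) 1 : Set (ℝ × ℝ)) ⊆ Icc 0 1 ×ˢ univ :=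
    prod_mono subset_rfl (subset_univ _)
  have hcont : ContinuousOn (fun q : ℝ × ℝ => |deriv (K q.1).x q.2| + |deriv (K q.1).y q.2|)
      (Icc (0 : ℝ) 1 ×ˢ Icc (0 : ℝ) 1) :=
    ((hx.mono hsub).abs).add ((hy.mono hsub).abs)
  have hcomp : IsCompact (Icc (0 : ℝ) 1 ×ˢ Icc (0 : ℝ) 1 : Set (ℝ × ℝ)) :=
    isCompact_Icc.prod isCompact_Icc
  have hne : (Icc (0 : ℝ) 1 ×ˢ Icc (0 : ℝ) 1 : Set (ℝ × ℝ)).Nonempty :=
    ⟨(0, 0), by simp⟩
  obtain ⟨q, hq, hmin⟩ := hcomp.exists_isMinOn hne hcont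
  have hpos : 0 < |deriv (K q.1).x q.2| + |deriv (K q.1).y q.2| := by
    obtain ⟨-, -, -, -, -, -, -, -, -, h, -⟩ := hBAS (K q.1)
    rcases h q.2 with h | h
    · have := abs_pos.mpr h
      have := abs_nonneg (deriv (K q.1).y q.2)
      linarith
    · have := abs_pos.mpr h
      have := abs_nonneg (deriv (K q.1).x q.2)
      linarith
  refine ⟨(|deriv (K q.1).x q.2| + |deriv (K q.1).y q.2|) / 2, by linarith, ?_⟩
  intro t ht u
  obtain ⟨-, -, -, px, py, -⟩ := hBAS (K t)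
  have e1 : deriv (K t).x (Int.fract u) = deriv (K t).x u :=
    BD2.deriv_fract px u
  have e2 : deriv (K t).y (Int.fract u) = deriv (K t).y u :=
    BD2.deriv_fract py u
  have hm : |deriv (K q.1).x q.2| + |deriv (K q.1).y q.2| ≤
      |deriv (K t).x (Int.fract u)| + |deriv (K t).y (Int.fract u)| :=
    hmin (show ((t, Int.fract u) : ℝ × ℝ) ∈ Icc (0 : ℝ) 1 ×ˢ Icc (0 : ℝ) 1 from
      ⟨ht, Int.fract_nonneg u, (Int.fract_lt_one u).le⟩)
  rw [e1, e2] at hm
  by_contra hcon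
  push Not at hcon
  linarith [hcon.1, hcon.2]

end LHS
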