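import Pool.Agent.LHS.Stmts

/-!
# BD3: uniform lower bound of the width of a family
-/

namespace LHS

open Set LH LC Filter
open scoped ContDiff Topology

theorem t_BD3 : Stmt_BD3 := by
  intro hB hC K hK
  by_contra hcon
  push Not at hcon
  have h1 : ∀ n : ℕ, ∃ t ∈ Icc (0 : ℝ) 1, ∀ u, |(K t).x u - (K t).x 0| < 1 / ((n : ℝ) + 1) := by
    intro n
    have hn : (0 : ℝ) < 1 / ((n : ℝ) + 1) := by positivity
    exact hcon _ hn
  choose t ht hlt using h1
  obtain ⟨a, ha, φ, hφ, hlim⟩ := isCompact_Icc.tendsto_subseq ht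
  obtain ⟨-, hx, -, -, -, -, -⟩ := hC K hK
  have hcx : ∀ u : ℝ, Tendsto (fun n => (K (t (φ n))).x u) atTop (𝓝 ((K a).x u)) := by
    intro u
    have h2 : ContinuousWithinAt (fun q : ℝ × ℝ => (K q.1).x q.2) (Icc 0 1 ×ˢ univ) (a, u) :=
      hx (a, u) ⟨ha, mem_univ _⟩
    have h3 : Tendsto (fun n => ((t (φ n), u) : ℝ × ℝ)) atTop (𝓝[Icc 0 1 ×ˢ univ] (a, u)) := by
      refine tendsto_nhdsWithin_iff.2 ⟨?_, ?_⟩
      · exact hlim.prodMk_nhds tendsto_const_nhds
      · exact Eventually.of_forall fun n => ⟨ht _, mem_univ _⟩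
    exact h2.tendsto.comp h3
  have hconst : ∀ u, (K a).x u = (K a).x 0 := by
    intro u
    have h4 : Tendsto (fun n => |(K (t (φ n))).x u - (K (t (φ n))).x 0|) atTop
        (𝓝 |(K a).x u - (K a).x 0|) := ((hcx u).sub (hcx 0)).abs
    have h5 : Tendsto (fun n : ℕ => 1 / (((φ n : ℕ) : ℝ) + 1)) atTop (𝓝 0) :=
      tendsto_one_div_add_atTop_nhds_zero_nat.comp hφ.tendsto_atTop
    have h6 : |(K a).x u - (K a).x 0| ≤ 0 :=
      le_of_tendsto_of_tendsto' h4 h5 fun n => (hlt (φ n) u).le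
    have h7 := abs_nonpos_iff.1 h6
    linarith
  obtain ⟨-, -, -, -, hpy, -, -, hdy, -, him, -⟩ := hB (K a)
  have hdx0 : ∀ u, deriv (K a).x u = 0 := by
    intro u
    have h8 : (K a).x = fun _ => (K a).x 0 := funext hconst
    rw [h8]
    exact deriv_const _ _
  have hy01 : (K a).y 0 = (K a).y 1 := by
    have := hpy 0
    rw [zero_add] at this
    exact this.symm
  have hcy : ContinuousOn (K a).y (Icc 0 1) := fun u _ =>
    (hdy u).continuousAt.continuousWithinAt
  obtain ⟨c, -, hc⟩ := exists_deriv_eq_zero zero_lt_one hcy hy01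
  rcases him c with h | h
  · exact h (hdx0 c)
  · exact h hc

end LHS
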