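import Pool.Agent.LHS.Stmts

/-!
# CTN: continuity of the coordinates of a family and of their derivatives
-/

namespace LHS

open Set LH LC Filter
open scoped ContDiff Topology

namespace CTN

/-- The derivative in the second variable of a smooth function on the strip. -/
lemma dsnd {E : Type*} [NormedAddCommGroup E] [NormedSpace ℝ E] {F : ℝ × ℝ → E}
    (hF : ContDiffOn ℝ ∞ F (Icc (0 : ℝ) 1 ×ˢ univ)) :
    ContDiffOn ℝ ∞ (fun q : ℝ × ℝ => deriv (fun v => F (q.1, v)) q.2)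
      (Icc (0 : ℝ) 1 ×ˢ univ) := by
  have hS : UniqueDiffOn ℝ (Icc (0 : ℝ) 1 ×ˢ (univ : Set ℝ)) :=
    (uniqueDiffOn_Icc zero_lt_one).prod uniqueDiffOn_univ
  have h1 : ContDiffOn ℝ ∞ (fderivWithin ℝ F (Icc (0 : ℝ) 1 ×ˢ univ))
      (Icc (0 : ℝ) 1 ×ˢ univ) := hF.fderivWithin hS (by norm_num)
  have h2 : ContDiffOn ℝ ∞ (fun q => fderivWithin ℝ F (Icc (0 : ℝ) 1 ×ˢ univ) q (0, 1))
      (Icc (0 : ℝ) 1 ×ˢ univ) := h1.clm_apply contDiffOn_const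
  refine h2.congr ?_
  rintro ⟨t, u⟩ hq
  have h3 : HasFDerivWithinAt F (fderivWithin ℝ F (Icc (0 : ℝ) 1 ×ˢ univ) (t, u))
      (Icc (0 : ℝ) 1 ×ˢ univ) (t, u) :=
    ((hF.differentiableOn (by norm_num)) _ hq).hasFDerivWithinAt
  have h4 : HasDerivWithinAt (fun v : ℝ => (t, v)) ((0 : ℝ), (1 : ℝ)) univ u :=
    ((hasDerivAt_const u t).prodMk (hasDerivAt_id u)).hasDerivWithinAt
  have h5 : MapsTo (fun v : ℝ => (t, v)) univ (Icc (0 : ℝ) 1 ×ˢ univ) := by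
    intro v _
    exact ⟨hq.1, mem_univ _⟩
  have h6 := h3.comp_hasDerivWithinAt u h4 h5
  rw [hasDerivWithinAt_univ] at h6
  exact h6.deriv

end CTN

open CTN

theorem t_CTN : Stmt_CTN := by
  intro K hK
  have hγ : ContDiffOn ℝ ∞ (fun q : ℝ × ℝ => (K q.1).γ q.2) (Icc 0 1 ×ˢ univ) := hK
  have hx : ContDiffOn ℝ ∞ (fun q : ℝ × ℝ => (K q.1).x q.2) (Icc 0 1 ×ˢ univ) := hγ.fst
  have hy : ContDiffOn ℝ ∞ (fun q : ℝ × ℝ => (K q.1).y q.2) (Icc 0 1 ×ˢ univ) := hγ.snd.fst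
  have hz : ContDiffOn ℝ ∞ (fun q : ℝ × ℝ => zc (K q.1) q.2) (Icc 0 1 ×ˢ univ) := hγ.snd.snd
  have hx1 : ContDiffOn ℝ ∞ (fun q : ℝ × ℝ => deriv (K q.1).x q.2) (Icc 0 1 ×ˢ univ) := dsnd hx
  have hy1 : ContDiffOn ℝ ∞ (fun q : ℝ × ℝ => deriv (K q.1).y q.2) (Icc 0 1 ×ˢ univ) := dsnd hy
  have hx2 : ContDiffOn ℝ ∞ (fun q : ℝ × ℝ => deriv (deriv (K q.1).x) q.2)
      (Icc 0 1 ×ˢ univ) := dsnd hx1
  exact ⟨hγ.continuousOn, hx.continuousOn, hy.continuousOn, hz.continuousOn, hx1.continuousOn,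
    hy1.continuousOn, hx2.continuousOn⟩

end LHS
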