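import Pool.Agent.LHS.Stmts

/-!
# MID: the midpoint estimate
-/

namespace LHS

open Set LH LC Filter
open scoped ContDiff Topology

theorem t_MID : Stmt_MID := by
  intro hbas Λ M η c hB N hN i
  obtain ⟨-, -, -, -, -, -, hx, -, hz, -, -⟩ := hbas Λ
  have hNr : (1 : ℝ) ≤ N := by exact_mod_cast hN
  have hN0 : (0 : ℝ) < N := by linarith
  have hM : 0 ≤ M := by
    have h1 := hB.xl 1 0
    have h2 : |(1 : ℝ) - 0| = 1 := by norm_num
    rw [h2, mul_one] at h1
    exact le_trans (abs_nonneg _) h1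
  have hxd : ∀ u, |deriv Λ.x u| ≤ M := by
    intro u
    have h1 := (hx u).le_of_lip' hM (Filter.Eventually.of_forall (fun v => by
      simpa [Real.norm_eq_abs] using hB.xl v u))
    simpa [Real.norm_eq_abs] using h1
  have hy0 : y0 Λ N i = Λ.y (((i : ℝ) + 1 / 2) / N) := rfl
  have hx1 : x0 Λ N (i + 1) = Λ.x (((i : ℝ) + 1) / N) := by
    unfold x0
    push_cast
    rfl
  have hx0 : x0 Λ N i = Λ.x ((i : ℝ) / N) := rfl
  rw [hy0, hx1, hx0]
  set a : ℝ := (i : ℝ) / N with ha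
  set b : ℝ := ((i : ℝ) + 1) / N with hb
  set m : ℝ := ((i : ℝ) + 1 / 2) / N with hm
  have hab : b - a = 1 / N := by
    rw [ha, hb]
    ring
  have hab0 : a ≤ b := by
    have : 0 ≤ b - a := by rw [hab]; positivity
    linarith
  have ham : m - a = 1 / N / 2 := by
    rw [ha, hm]
    ring
  have hpos : (0 : ℝ) < 1 / N := by positivity
  have hg : ∀ u, HasDerivAt (fun u => zc Λ u - Λ.y m * Λ.x u)
      (Λ.y u * deriv Λ.x u - Λ.y m * deriv Λ.x u) u := fun u =>
    (hz u).sub ((hx u).const_mul (Λ.y m))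
  have hbound : ∀ u ∈ Icc a b, ‖Λ.y u * deriv Λ.x u - Λ.y m * deriv Λ.x u‖ ≤ M * (1 / N) * M := by
    intro u hu
    have h1 : Λ.y u * deriv Λ.x u - Λ.y m * deriv Λ.x u = (Λ.y u - Λ.y m) * deriv Λ.x u := by ring
    rw [h1, norm_mul, Real.norm_eq_abs, Real.norm_eq_abs]
    have h2 : |u - m| ≤ 1 / N := by
      rw [abs_le]
      constructor
      · linarith [hu.1]
      · linarith [hu.2]
    have h3 : |Λ.y u - Λ.y m| ≤ M * (1 / N) :=
      le_trans (hB.yl u m) (mul_le_mul_of_nonneg_left h2 hM)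
    exact mul_le_mul h3 (hxd u) (abs_nonneg _) (by positivity)
  have hmv := Convex.norm_image_sub_le_of_norm_hasDerivWithin_le
    (fun u _ => (hg u).hasDerivWithinAt) hbound (convex_Icc a b)
    (left_mem_Icc.2 hab0) (right_mem_Icc.2 hab0)
  rw [Real.norm_eq_abs, Real.norm_eq_abs, hab, abs_of_pos hpos] at hmv
  have e1 : Λ.y m * (Λ.x b - Λ.x a) - (zc Λ b - zc Λ a)
      = -(zc Λ b - Λ.y m * Λ.x b - (zc Λ a - Λ.y m * Λ.x a)) := by ring
  rw [e1, abs_neg]
  refine le_trans hmv (le_of_eq ?_)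
  field_simp

end LHS
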