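import Pool.Agent.LHS.Stmts

/-!
# MUB: the bound of the correction factor, and the denominator
-/

namespace LHS

open Set LH LC Filter
open scoped ContDiff Topology

namespace MUB

theorem x0_nat (Λ : LegKnot) (N i : ℕ) : x0 Λ N (i : ℤ) = Λ.x ((i : ℝ) / N) := by
  simp [x0]

theorem x0_nat_succ (Λ : LegKnot) (N i : ℕ) :
    x0 Λ N ((i : ℤ) + 1) = Λ.x (((i + 1 : ℕ) : ℝ) / N) := by
  simp [x0]

theorem sum_abs (X : ℕ → ℝ) (n N : ℕ) (hn : n ≤ N) :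
    |X n - X 0| ≤ ∑ j ∈ Finset.range N, |X (j + 1) - X j| := by
  rw [← Finset.sum_range_sub X n]
  refine (Finset.abs_sum_le_sum_abs _ _).trans ?_
  exact Finset.sum_le_sum_of_subset_of_nonneg (Finset.range_mono hn)
    (fun i _ _ => abs_nonneg _)

theorem sum_sq (X : ℕ → ℝ) (n N : ℕ) (hn : n ≤ N) :
    (X n - X 0) ^ 2 ≤ N * ∑ j ∈ Finset.range N, (X (j + 1) - X j) ^ 2 := by
  have h1 := sum_abs X n N hn
  have h2 : (∑ j ∈ Finset.range N, |X (j + 1) - X j|) ^ 2 ≤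
      (Finset.range N).card * ∑ j ∈ Finset.range N, |X (j + 1) - X j| ^ 2 :=
    sq_sum_le_card_mul_sum_sq
  simp only [sq_abs, Finset.card_range] at h2
  refine le_trans ?_ h2
  rw [← sq_abs]
  exact pow_le_pow_left₀ (abs_nonneg _) h1 2

theorem den (Λ : LegKnot) (M η c : ℝ) (hM : 1 ≤ M) (hc : 0 < c) (hB : Bd Λ M η c) (N : ℕ)
    (hN : 1 ≤ N) (h2 : 2 * M ≤ c * N) :
    c ^ 2 / (4 * N) ≤ ∑ i ∈ Finset.range N, (x0 Λ N ((i : ℤ) + 1) - x0 Λ N (i : ℤ)) ^ 2 := by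
  have hN0 : (0 : ℝ) < N := by exact_mod_cast hN
  have hper : Function.Periodic Λ.x 1 := by
    intro u
    unfold LegKnot.x
    rw [Λ.periodic]
  obtain ⟨u, hu⟩ := hB.rg
  obtain ⟨v, hv0, hv1, hv⟩ : ∃ v : ℝ, 0 ≤ v ∧ v < 1 ∧ c ≤ |Λ.x v - Λ.x 0| := by
    refine ⟨Int.fract u, Int.fract_nonneg u, Int.fract_lt_one u, ?_⟩
    have : Λ.x (Int.fract u) = Λ.x u := by
      have h := hper.sub_zsmul_eq (x := u) (⌊u⌋)
      rw [zsmul_eq_mul, mul_one] at h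
      exact h
    rw [this]
    exact hu
  set n : ℕ := ⌊v * N⌋₊ with hn
  have hvN : 0 ≤ v * N := by positivity
  have hn1 : (n : ℝ) ≤ v * N := Nat.floor_le hvN
  have hn2 : v * N < n + 1 := Nat.lt_floor_add_one _
  have hnN : n ≤ N := by
    have : (n : ℝ) < N := by
      calc (n : ℝ) ≤ v * N := hn1
        _ < 1 * N := mul_lt_mul_of_pos_right hv1 hN0
        _ = N := one_mul _
    exact_mod_cast this.le
  have hd : |v - (n : ℝ) / N| ≤ 1 / N := by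
    rw [abs_le]
    constructor
    · have : (n : ℝ) / N ≤ v := by rw [div_le_iff₀ hN0]; exact hn1
      have h3 : (0 : ℝ) < 1 / N := by positivity
      linarith
    · have : v ≤ ((n : ℝ) + 1) / N := by rw [le_div_iff₀ hN0]; exact hn2.le
      rw [add_div] at this
      linarith
  have hx : |Λ.x v - Λ.x ((n : ℝ) / N)| ≤ c / 2 := by
    refine (hB.xl _ _).trans ?_
    calc M * |v - (n : ℝ) / N| ≤ M * (1 / N) := by
          exact mul_le_mul_of_nonneg_left hd (by linarith)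
      _ = M / N := by ring
      _ ≤ c / 2 := by
          rw [div_le_div_iff₀ hN0 two_pos]
          linarith
  have hx0 : c / 2 ≤ |Λ.x ((n : ℝ) / N) - Λ.x 0| := by
    have h3 : |Λ.x v - Λ.x 0| ≤ |Λ.x v - Λ.x ((n : ℝ) / N)| + |Λ.x ((n : ℝ) / N) - Λ.x 0| :=
      abs_sub_le _ _ _
    linarith
  have h4 := sum_sq (fun j : ℕ => Λ.x ((j : ℝ) / N)) n N hnN
  simp only [Nat.cast_zero, zero_div] at h4
  have h5 : ∑ i ∈ Finset.range N, (x0 Λ N ((i : ℤ) + 1) - x0 Λ N (i : ℤ)) ^ 2 =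
      ∑ j ∈ Finset.range N, (Λ.x (((j + 1 : ℕ) : ℝ) / N) - Λ.x ((j : ℝ) / N)) ^ 2 := by
    refine Finset.sum_congr rfl fun i _ => ?_
    rw [x0_nat, x0_nat_succ]
  rw [h5]
  have h6 : (c / 2) ^ 2 ≤ (Λ.x ((n : ℝ) / N) - Λ.x 0) ^ 2 := by
    rw [← sq_abs (Λ.x ((n : ℝ) / N) - Λ.x 0)]
    exact pow_le_pow_left₀ (by positivity) hx0 2
  rw [div_le_iff₀ (by positivity)]
  nlinarith [h4, h6]

theorem num (mid : P_MID) (Λ : LegKnot) (M η c : ℝ) (hB : Bd Λ M η c) (N : ℕ) (hN : 1 ≤ N) :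
    |∑ i ∈ Finset.range N, y0 Λ N (i : ℤ) * (x0 Λ N ((i : ℤ) + 1) - x0 Λ N (i : ℤ))| ≤
      M ^ 2 / N := by
  have hN0 : (0 : ℝ) < N := by exact_mod_cast hN
  have hz : ∑ i ∈ Finset.range N, (zc Λ (((i + 1 : ℕ) : ℝ) / N) - zc Λ ((i : ℝ) / N)) = 0 := by
    rw [Finset.sum_range_sub (fun i : ℕ => zc Λ ((i : ℝ) / N)) N]
    rw [div_self hN0.ne', Nat.cast_zero, zero_div]
    have : zc Λ (0 + 1) = zc Λ 0 := by
      unfold zc
      rw [Λ.periodic]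
    rw [zero_add] at this
    rw [this, sub_self]
  have h1 : ∑ i ∈ Finset.range N, y0 Λ N (i : ℤ) * (x0 Λ N ((i : ℤ) + 1) - x0 Λ N (i : ℤ)) =
      ∑ i ∈ Finset.range N, (y0 Λ N (i : ℤ) * (x0 Λ N ((i : ℤ) + 1) - x0 Λ N (i : ℤ)) -
        (zc Λ (((i + 1 : ℕ) : ℝ) / N) - zc Λ ((i : ℝ) / N))) := by
    rw [Finset.sum_sub_distrib, hz, sub_zero]
  rw [h1]
  refine (Finset.abs_sum_le_sum_abs _ _).trans ?_
  have h2 : ∀ i ∈ Finset.range N,
      |y0 Λ N (i : ℤ) * (x0 Λ N ((i : ℤ) + 1) - x0 Λ N (i : ℤ)) -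
        (zc Λ (((i + 1 : ℕ) : ℝ) / N) - zc Λ ((i : ℝ) / N))| ≤ M ^ 2 / (N : ℝ) ^ 2 := by
    intro i _
    have h := mid Λ M η c hB N hN (i : ℤ)
    simpa only [Int.cast_natCast, Nat.cast_add, Nat.cast_one] using h
  refine (Finset.sum_le_sum h2).trans ?_
  rw [Finset.sum_const, Finset.card_range, nsmul_eq_mul]
  apply le_of_eq
  field_simp

end MUB

theorem t_MUB : Stmt_MUB := by
  intro _ mid Λ M η c hM hc hB N hN h2
  have hN0 : (0 : ℝ) < N := by exact_mod_cast hN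
  have hden := MUB.den Λ M η c hM hc hB N hN h2
  have hnum := MUB.num mid Λ M η c hB N hN
  have hc4 : 0 < c ^ 2 / (4 * N) := by positivity
  have hpos := lt_of_lt_of_le hc4 hden
  refine ⟨hpos, ?_⟩
  unfold mu
  rw [abs_div, abs_of_pos hpos, div_le_iff₀ hpos]
  refine hnum.trans ?_
  calc M ^ 2 / N = 4 * M ^ 2 / c ^ 2 * (c ^ 2 / (4 * N)) := by
        field_simp
    _ ≤ _ := mul_le_mul_of_nonneg_left hden (by positivity)

end LHS
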