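import Pool.Agent.LHS.Stmts

/-!
# ZAP: the vertices of the polygon are close to the front of the knot
-/

namespace LHS

open Set LH LC Filter
open scoped ContDiff Topology

namespace ZAP

/-- The error at the vertex `i`. -/
noncomputable def er (Λ : LegKnot) {N : ℕ} (P : Pg N) (i : ℤ) : ℝ := P.z i - (zc Λ ((i : ℝ) / N) - zc Λ 0)

theorem er_zero (Λ : LegKnot) {N : ℕ} (P : Pg N) (h : P.z 0 = 0) : er Λ P 0 = 0 := by
  unfold er; simp [h]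

theorem er_per (Λ : LegKnot) {N : ℕ} (hN : 1 ≤ N) (P : Pg N)
    (hz : ∀ u, zc Λ (u + 1) = zc Λ u) (i : ℤ) : er Λ P (i + N) = er Λ P i := by
  unfold er
  have hN' : (N : ℝ) ≠ 0 := by positivity
  have : (((i + N : ℤ) : ℝ)) / N = (i : ℝ) / N + 1 := by
    push_cast; field_simp
  rw [P.pz, this, hz]

theorem er_step (Λ : LegKnot) {M c : ℝ} (hM : 1 ≤ M) (hc : 0 < c) {N : ℕ} (hN : 1 ≤ N)
    (P : Pg N) (hP : IsPN Λ N P)
    (hxl : ∀ u v, |Λ.x u - Λ.x v| ≤ M * |u - v|)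
    (hmid : ∀ i : ℤ, |y0 Λ N i * (x0 Λ N (i + 1) - x0 Λ N i) -
      (zc Λ (((i : ℝ) + 1) / N) - zc Λ ((i : ℝ) / N))| ≤ M ^ 2 / (N : ℝ) ^ 2)
    (hmu : |mu Λ N| ≤ 4 * M ^ 2 / c ^ 2) (i : ℤ) :
    |er Λ P (i + 1) - er Λ P i| ≤ (M ^ 2 + 4 * M ^ 4 / c ^ 2) / (N : ℝ) ^ 2 := by
  have hN0 : (0 : ℝ) < N := by positivity
  obtain ⟨hx, hy, -⟩ := hP
  have hD : |x0 Λ N (i + 1) - x0 Λ N i| ≤ M / N := by
    have h := hxl (((i + 1 : ℤ) : ℝ) / N) ((i : ℝ) / N)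
    have e : ((i + 1 : ℤ) : ℝ) / N - (i : ℝ) / N = 1 / N := by
      push_cast; field_simp; ring
    rw [e, abs_of_pos (by positivity : (0 : ℝ) < 1 / N)] at h
    unfold x0
    calc |Λ.x (((i + 1 : ℤ) : ℝ) / N) - Λ.x ((i : ℝ) / N)| ≤ M * (1 / N) := h
      _ = M / N := by ring
  have hcl := P.cl i
  rw [hx, hy] at hcl
  have e1 : er Λ P (i + 1) - er Λ P i =
      (y0 Λ N i * (x0 Λ N (i + 1) - x0 Λ N i) -
        (zc Λ (((i : ℝ) + 1) / N) - zc Λ ((i : ℝ) / N))) -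
      mu Λ N * (x0 Λ N (i + 1) - x0 Λ N i) ^ 2 := by
    unfold er
    rw [hcl]
    unfold y1
    push_cast
    ring
  rw [e1]
  have h2 : |mu Λ N * (x0 Λ N (i + 1) - x0 Λ N i) ^ 2| ≤ 4 * M ^ 2 / c ^ 2 * (M / N) ^ 2 := by
    rw [abs_mul, abs_pow]
    exact mul_le_mul hmu (pow_le_pow_left₀ (abs_nonneg _) hD 2) (by positivity) (by positivity)
  calc |(y0 Λ N i * (x0 Λ N (i + 1) - x0 Λ N i) -
        (zc Λ (((i : ℝ) + 1) / N) - zc Λ ((i : ℝ) / N))) -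
      mu Λ N * (x0 Λ N (i + 1) - x0 Λ N i) ^ 2|
      ≤ |y0 Λ N i * (x0 Λ N (i + 1) - x0 Λ N i) -
        (zc Λ (((i : ℝ) + 1) / N) - zc Λ ((i : ℝ) / N))| +
        |mu Λ N * (x0 Λ N (i + 1) - x0 Λ N i) ^ 2| := abs_sub _ _
    _ ≤ M ^ 2 / (N : ℝ) ^ 2 + 4 * M ^ 2 / c ^ 2 * (M / N) ^ 2 := add_le_add (hmid i) h2
    _ = (M ^ 2 + 4 * M ^ 4 / c ^ 2) / (N : ℝ) ^ 2 := by
      field_simp

theorem bound_nat (f : ℤ → ℝ) (C : ℝ) (h0 : f 0 = 0) (hs : ∀ i, |f (i + 1) - f i| ≤ C) (n : ℕ) :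
    |f n| ≤ n * C := by
  induction n with
  | zero => simp [h0]
  | succ n ih =>
    have h := hs n
    have e : f ((n + 1 : ℕ) : ℤ) = (f ((n : ℤ) + 1) - f n) + f n := by push_cast; ring
    rw [e]
    calc |f ((n : ℤ) + 1) - f n + f n| ≤ |f ((n : ℤ) + 1) - f n| + |f n| := abs_add_le _ _
      _ ≤ C + n * C := add_le_add h ih
      _ = ((n + 1 : ℕ) : ℝ) * C := by push_cast; ring

theorem per_int (f : ℤ → ℝ) (N : ℕ) (hp : ∀ i, f (i + N) = f i) (i k : ℤ) :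
    f (i + k * N) = f i := by
  have hper : Function.Periodic f (N : ℤ) := hp
  have := hper.int_mul k i
  simpa using this

end ZAP

theorem t_ZAP : Stmt_ZAP := by
  intro hBAS hMID hMUB Λ M η c hM hc hB N hN hNc P hP i
  obtain ⟨-, -, -, -, -, hz, -⟩ := hBAS Λ
  have hmid := hMID Λ M η c hB N hN
  obtain ⟨-, hmu⟩ := hMUB Λ M η c hM hc hB N hN hNc
  have hN0 : (0 : ℝ) < N := by positivity
  have hs := ZAP.er_step Λ hM hc hN P hP hB.xl hmid hmu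
  have h0 := ZAP.er_zero Λ P hP.2.2
  have hp := ZAP.er_per Λ hN P hz
  have hbn := ZAP.bound_nat (ZAP.er Λ P) _ h0 hs
  have hNz : (0 : ℤ) < (N : ℤ) := by exact_mod_cast hN
  have e1 : ZAP.er Λ P i = ZAP.er Λ P (i % N) := by
    have := ZAP.per_int (ZAP.er Λ P) N hp (i % N) (i / N)
    rw [← this, mul_comm, Int.emod_add_mul_ediv]
  obtain ⟨n, hn⟩ := Int.eq_ofNat_of_zero_le (Int.emod_nonneg i hNz.ne')
  have hlt : i % N < N := Int.emod_lt_of_pos i hNz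
  have hnN : (n : ℝ) ≤ N := by
    have : (n : ℤ) < N := by rw [← hn]; exact hlt
    exact_mod_cast this.le
  change |ZAP.er Λ P i| ≤ _
  rw [e1, hn]
  refine (hbn n).trans ?_
  have hC : 0 ≤ (M ^ 2 + 4 * M ^ 4 / c ^ 2) / (N : ℝ) ^ 2 := by positivity
  calc (n : ℝ) * ((M ^ 2 + 4 * M ^ 4 / c ^ 2) / (N : ℝ) ^ 2)
      ≤ N * ((M ^ 2 + 4 * M ^ 4 / c ^ 2) / (N : ℝ) ^ 2) := mul_le_mul_of_nonneg_right hnN hC
    _ = (M ^ 2 + 4 * M ^ 4 / c ^ 2) / N := by field_simp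

end LHS
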