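import Pool.Agent.LHS.Stmts

/-!
# CAR: knots with the same carrier
-/

namespace LHS

open Set LH LC Filter
open scoped ContDiff Topology

namespace CAR

/-- The derivative of the reversed parameter change. -/
theorem deriv_rev (φ : ℝ → ℝ) (u : ℝ) : deriv (fun v => φ (-v)) u = -deriv φ (-u) :=
  deriv_comp_neg φ u

theorem contDiff_rev {φ : ℝ → ℝ} (h : ContDiff ℝ ∞ φ) : ContDiff ℝ ∞ fun v => φ (-v) :=
  h.comp contDiff_neg

end CAR

/-- CAR: knots with the same carrier. -/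
theorem t_CAR : Stmt_CAR := by
  intro hL hS hD Λ Λ' hc
  obtain ⟨φ, hφ, hγ⟩ := hL Λ Λ' hc
  obtain ⟨h1, h2⟩ := hS Λ Λ' φ hφ hγ
  rcases hD Λ Λ' φ h1 h2 hγ with ⟨h3, h4⟩ | ⟨h3, h4⟩
  · exact Or.inl ⟨φ, h1, h3, h4, hγ⟩
  · refine Or.inr fun Λ₁ hr => ⟨fun v => φ (-v), CAR.contDiff_rev h1, ?_, ?_, ?_⟩
    · intro u
      rw [CAR.deriv_rev]
      exact neg_pos.2 (h3 (-u))
    · intro u
      have h5 := h4 (-(u + 1))
      have h6 : -(u + 1) + 1 = -u := by ring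
      rw [h6] at h5
      change φ (-(u + 1)) = φ (-u) + 1
      rw [h5]
      ring
    · intro u
      rw [hr u]
      exact hγ (-u)

end LHS
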