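import Pool.Agent.LHS.Stmts

/-!
# The knot crosses the line in the parameter interval of every edge of a component
-/

namespace LHS

open Set LH LC Filter
open scoped ContDiff Topology

namespace CRS

theorem div_le_div_succ {N : ℕ} (hN : 1 ≤ N) (i : ℤ) : (i : ℝ) / N ≤ ((i : ℝ) + 1) / N := by
  have h : (0 : ℝ) < N := by exact_mod_cast hN
  exact div_le_div_of_nonneg_right (by linarith) h.le

theorem x_eq {Λ : LegKnot} {N : ℕ} {P : Pg N} (h : IsPN Λ N P) (i : ℤ) :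
    P.x i = Λ.x ((i : ℝ) / N) := by
  rw [h.1]
  rfl

theorem x_succ {Λ : LegKnot} {N : ℕ} {P : Pg N} (h : IsPN Λ N P) (i : ℤ) :
    P.x (i + 1) = Λ.x (((i : ℝ) + 1) / N) := by
  rw [x_eq h]
  push_cast
  rfl

end CRS

/-- CRS -/
theorem t_CRS : Stmt_CRS := by
  intro hB Λ N P hN hP e p q hc i hi
  have hle := CRS.div_le_div_succ hN i
  rcases eq_or_lt_of_le hi.1 with h1 | h1
  · rcases eq_or_lt_of_le hi.2 with h2 | h2
    · -- a component with one edge
      have hpq : p = q := h1.trans h2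
      have hcont : Continuous Λ.x := (hB Λ).1.continuous
      have hx := CRS.x_eq hP i
      have hx1 := CRS.x_succ hP i
      rcases hc.one hpq with h3 | h3
      · rw [h1, hx, ← h2, hx1] at h3
        obtain ⟨u, hu, he⟩ := intermediate_value_Icc hle hcont.continuousOn
          (⟨h3.1.le, h3.2.le⟩ : e ∈ Icc (Λ.x ((i : ℝ) / N)) (Λ.x (((i : ℝ) + 1) / N)))
        exact ⟨u, hu, he⟩
      · rw [h1, hx, ← h2, hx1] at h3
        obtain ⟨u, hu, he⟩ := intermediate_value_Icc' hle hcont.continuousOn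
          (⟨h3.1.le, h3.2.le⟩ : e ∈ Icc (Λ.x (((i : ℝ) + 1) / N)) (Λ.x ((i : ℝ) / N)))
        exact ⟨u, hu, he⟩
    · refine ⟨((i : ℝ) + 1) / N, ⟨hle, le_rfl⟩, ?_⟩
      rw [← CRS.x_succ hP]
      exact hc.ins (i + 1) (by omega) (by omega)
  · refine ⟨(i : ℝ) / N, ⟨le_rfl, hle⟩, ?_⟩
    rw [← CRS.x_eq hP]
    exact hc.ins i h1 hi.2

end LHS
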