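import Pool.Agent.LHS.Stmts

/-!
# The change of the parameter of a knot has degree `1` or `-1`
-/

namespace LHS

open Set LH LC Filter
open scoped ContDiff Topology

namespace DEG

theorem sign {f : ℝ → ℝ} (hf : Continuous f) (h0 : ∀ u, f u ≠ 0) :
    (∀ u, 0 < f u) ∨ ∀ u, f u < 0 := by
  by_contra h
  push Not at h
  obtain ⟨⟨a, ha⟩, ⟨b, hb⟩⟩ := h
  obtain ⟨c, hc⟩ := mem_range_of_exists_le_of_exists_ge hf ⟨a, ha⟩ ⟨b, hb⟩
  exact h0 c hc

/-- No point strictly inside a period has the same image. -/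
theorem no_int {Λ : LegKnot} {u v : ℝ} (hv : v ∈ Ioo u (u + 1)) (h : Λ.γ u = Λ.γ v) : False := by
  obtain ⟨k, hk⟩ := Λ.injective u v h
  rw [hk] at hv
  have h1 : (0 : ℝ) < k := by linarith [hv.1]
  have h2 : (k : ℝ) < 1 := by linarith [hv.2]
  have h3 : 0 < k := by exact_mod_cast h1
  have h4 : k < 1 := by exact_mod_cast h2
  omega

end DEG

/-- DEG: the degree is `1` or `-1`. -/
theorem t_DEG : Stmt_DEG := by
  intro Λ Λ' φ hφ hd hγ
  have hc : Continuous φ := hφ.continuous
  have hdc : Continuous (deriv φ) := hφ.continuous_deriv (by norm_num)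
  have hk : ∀ u, ∃ k : ℤ, φ (u + 1) = φ u + k := by
    intro u
    apply Λ'.injective
    rw [← hγ, ← hγ, Λ.periodic]
  rcases DEG.sign hdc hd with hpos | hneg
  · left
    refine ⟨hpos, fun u => ?_⟩
    have hm : StrictMono φ := strictMono_of_deriv_pos hpos
    obtain ⟨k, hk⟩ := hk u
    have h1 : φ u < φ (u + 1) := hm (by linarith)
    have h2 : (0 : ℝ) < k := by rw [hk] at h1; linarith
    have h3 : 0 < k := by exact_mod_cast h2
    rcases (show k = 1 ∨ 2 ≤ k by omega) with h4 | h4
    · rw [hk, h4, Int.cast_one]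
    · exfalso
      have h5 : (2 : ℝ) ≤ k := by exact_mod_cast h4
      have h6 : φ u + 1 ∈ Ioo (φ u) (φ (u + 1)) := by
        rw [hk]
        constructor <;> linarith
      obtain ⟨v, hv, hv'⟩ := intermediate_value_Ioo (by linarith : u ≤ u + 1) hc.continuousOn h6
      refine DEG.no_int (Λ := Λ) hv ?_
      rw [hγ u, hγ v, hv', Λ'.periodic]
  · right
    refine ⟨hneg, fun u => ?_⟩
    have hm : StrictAnti φ := strictAnti_of_deriv_neg hneg
    obtain ⟨k, hk⟩ := hk u
    have h1 : φ (u + 1) < φ u := hm (by linarith)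
    have h2 : (k : ℝ) < 0 := by rw [hk] at h1; linarith
    have h3 : k < 0 := by exact_mod_cast h2
    rcases (show k = -1 ∨ k ≤ -2 by omega) with h4 | h4
    · rw [hk, h4]
      push_cast
      ring
    · exfalso
      have h5 : (k : ℝ) ≤ -2 := by exact_mod_cast h4
      have h6 : φ u - 1 ∈ Ioo (φ (u + 1)) (φ u) := by
        rw [hk]
        constructor <;> linarith
      obtain ⟨v, hv, hv'⟩ := intermediate_value_Ioo' (by linarith : u ≤ u + 1) hc.continuousOn h6
      refine DEG.no_int (Λ := Λ) hv ?_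
      have h7 := Λ'.periodic (φ u - 1)
      rw [sub_add_cancel] at h7
      rw [hγ u, hγ v, hv', h7]

end LHS
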