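import Pool.Agent.LHS.Stmts

/-!
# EMB: the polygons are embedded
-/

namespace LHS

open Set LH LC Filter
open scoped ContDiff Topology

theorem t_EMB : Stmt_EMB := by
  intro hM hT hS Λ M η c σ N hB hN hG P hP
  refine { nc := ?_, ty := ?_, sep := ?_ }
  · by_contra hcon
    push Not at hcon
    have h1 := (hM Λ M η c hN.M1 hN.c0 hB N hN.n1 hN.n2).1
    have h2 : ∑ i ∈ Finset.range N, (x0 Λ N ((i : ℤ) + 1) - x0 Λ N (i : ℤ)) ^ 2 = 0 := by
      refine Finset.sum_eq_zero fun i _ => ?_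
      rw [← hP.1, hcon ((i : ℤ) + 1), hcon (i : ℤ), sub_self]
      norm_num
    rw [h2] at h1
    exact lt_irrefl _ h1
  · exact hT Λ M η c σ N hB hN P hP
  · exact hS Λ M η c σ N hB hN hG P hP

end LHS
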