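import Pool.Agent.LHS.Stmts

/-!
# Module FAR: far components with the same front point are ordered
-/

namespace LHS

open Set LH LC Filter
open scoped ContDiff Topology

namespace FAR

/-- The bound of `x'`. -/
lemma dx_le {Λ : LegKnot} {M : ℝ} (hM : 0 ≤ M)
    (xl : ∀ u v, |Λ.x u - Λ.x v| ≤ M * |u - v|) (u : ℝ) : |deriv Λ.x u| ≤ M := by
  have h := norm_deriv_le_of_lip' (f := Λ.x) (x₀ := u) hM
    (Filter.Eventually.of_forall fun v => by
      rw [Real.norm_eq_abs, Real.norm_eq_abs]; exact xl v u)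
  rwa [Real.norm_eq_abs] at h

/-- The Lipschitz bound of `z`. -/
lemma zl (hB : Stmt_BAS) {Λ : LegKnot} {M : ℝ} (hM : 0 ≤ M) (yb : ∀ u, |Λ.y u| ≤ M)
    (xl : ∀ u v, |Λ.x u - Λ.x v| ≤ M * |u - v|) (u v : ℝ) :
    |zc Λ v - zc Λ u| ≤ M ^ 2 * |v - u| := by
  obtain ⟨-, -, -, -, -, -, -, -, hz, -⟩ := hB Λ
  have h := Convex.norm_image_sub_le_of_norm_hasDerivWithin_le (s := univ) (f := zc Λ)
    (f' := fun u => Λ.y u * deriv Λ.x u) (C := M ^ 2)
    (fun x _ => (hz x).hasDerivWithinAt)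
    (fun x _ => by
      rw [Real.norm_eq_abs, abs_mul, pow_two]
      exact mul_le_mul (yb x) (dx_le hM xl x) (abs_nonneg _) hM)
    convex_univ (mem_univ u) (mem_univ v)
  rwa [Real.norm_eq_abs, Real.norm_eq_abs] at h

/-- `|D_i| ≤ M / N`. -/
lemma D_le {Λ : LegKnot} {M : ℝ} (xl : ∀ u v, |Λ.x u - Λ.x v| ≤ M * |u - v|)
    {N : ℕ} (hN : 1 ≤ N) (i : ℤ) : |x0 Λ N (i + 1) - x0 Λ N i| ≤ M / N := by
  have hn : (0 : ℝ) < N := by exact_mod_cast hN
  have h := xl (((i + 1 : ℤ) : ℝ) / N) ((i : ℝ) / N)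
  have e : ((i + 1 : ℤ) : ℝ) / N - (i : ℝ) / N = 1 / N := by push_cast; ring
  rw [e, abs_of_pos (show (0 : ℝ) < 1 / N by positivity)] at h
  unfold x0
  calc _ ≤ M * (1 / N) := h
    _ = M / N := by ring

/-- The estimates of one edge. -/
lemma est (hBAS : Stmt_BAS) (hMUB : P_MUB) (hZAP : P_ZAP) {Λ : LegKnot} {M η c σ : ℝ} {N : ℕ}
    (hb : Bd Λ M η c) (hn : NL M η c σ N) {P : Pg N} (hP : IsPN Λ N P) {e : ℝ} {i : ℤ} {u : ℝ}
    (hu : u ∈ Icc ((i : ℝ) / N) (((i : ℝ) + 1) / N)) (hx : Λ.x u = e) :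
    |Λ.x (((i : ℝ) + 1 / 2) / N) - e| ≤ M / N ∧
      |zc Λ (((i : ℝ) + 1 / 2) / N) - zc Λ 0 - P.l i e| ≤ (3 + 2 * (4 * M ^ 2 / c ^ 2)) * M ^ 2 / N ∧
      |P.y i - Λ.y (((i : ℝ) + 1 / 2) / N)| ≤ (4 * M ^ 2 / c ^ 2) * M / N := by
  have hN : (0 : ℝ) < N := by exact_mod_cast hn.n1
  have hN1 : (1 : ℝ) ≤ N := by exact_mod_cast hn.n1
  have hM1 := hn.M1
  have hM : 0 ≤ M := by linarith
  have hc := hn.c0
  obtain ⟨-, hmu⟩ := hMUB Λ M η c hn.M1 hn.c0 hb N hn.n1 hn.n2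
  have hz := hZAP Λ M η c hn.M1 hn.c0 hb N hn.n1 hn.n2 P hP i
  set B := 4 * M ^ 2 / c ^ 2 with hB
  have hB0 : 0 ≤ B := by positivity
  have hBM : 4 * M ^ 4 / c ^ 2 = B * M ^ 2 := by rw [hB]; ring
  rw [hBM] at hz
  obtain ⟨hPx, hPy, -⟩ := hP
  have hD := D_le hb.xl hn.n1 i
  -- the third estimate
  have h3 : |P.y i - Λ.y (((i : ℝ) + 1 / 2) / N)| ≤ B * M / N := by
    have : P.y i - Λ.y (((i : ℝ) + 1 / 2) / N) = - (mu Λ N * (x0 Λ N (i + 1) - x0 Λ N i)) := by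
      rw [hPy]; unfold y1 y0; ring
    rw [this, abs_neg, abs_mul]
    calc |mu Λ N| * |x0 Λ N (i + 1) - x0 Λ N i| ≤ B * (M / N) :=
          mul_le_mul hmu hD (abs_nonneg _) hB0
      _ = B * M / N := by ring
  obtain ⟨hu1, hu2⟩ := hu
  have hmid1 : (i : ℝ) / N ≤ ((i : ℝ) + 1 / 2) / N := by gcongr; linarith
  have hmid2 : ((i : ℝ) + 1 / 2) / N ≤ ((i : ℝ) + 1) / N := by gcongr; linarith
  have hlen : ((i : ℝ) + 1) / N - (i : ℝ) / N = 1 / N := by ring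
  -- the first estimate
  have h1 : |Λ.x (((i : ℝ) + 1 / 2) / N) - e| ≤ M / N := by
    rw [← hx]
    have h := hb.xl (((i : ℝ) + 1 / 2) / N) u
    have h' : |((i : ℝ) + 1 / 2) / N - u| ≤ 1 / N := by rw [abs_le]; constructor <;> linarith
    calc _ ≤ M * |((i : ℝ) + 1 / 2) / N - u| := h
      _ ≤ M * (1 / N) := mul_le_mul_of_nonneg_left h' hM
      _ = M / N := by ring
  refine ⟨h1, ?_, h3⟩
  have hxi : |e - P.x i| ≤ M / N := by
    rw [← hx, hPx]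
    unfold x0
    have h := hb.xl u ((i : ℝ) / N)
    have h' : |u - (i : ℝ) / N| ≤ 1 / N := by rw [abs_le]; constructor <;> linarith
    calc _ ≤ M * |u - (i : ℝ) / N| := h
      _ ≤ M * (1 / N) := mul_le_mul_of_nonneg_left h' hM
      _ = M / N := by ring
  have hyi : |P.y i| ≤ M + B * M := by
    have hy := hb.yb (((i : ℝ) + 1 / 2) / N)
    have : |P.y i| ≤ |P.y i - Λ.y (((i : ℝ) + 1 / 2) / N)| + |Λ.y (((i : ℝ) + 1 / 2) / N)| := by
      have := abs_add_le (P.y i - Λ.y (((i : ℝ) + 1 / 2) / N)) (Λ.y (((i : ℝ) + 1 / 2) / N))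
      simpa using this
    have h4 : B * M / N ≤ B * M := div_le_self (by positivity) hN1
    linarith
  have hzz : |zc Λ (((i : ℝ) + 1 / 2) / N) - zc Λ ((i : ℝ) / N)| ≤ M ^ 2 / N := by
    have h := zl hBAS hM hb.yb hb.xl ((i : ℝ) / N) (((i : ℝ) + 1 / 2) / N)
    have h' : |((i : ℝ) + 1 / 2) / N - (i : ℝ) / N| ≤ 1 / N := by
      rw [abs_le]; constructor <;> linarith [show (0 : ℝ) ≤ 1 / N by positivity]
    calc _ ≤ M ^ 2 * |((i : ℝ) + 1 / 2) / N - (i : ℝ) / N| := h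
      _ ≤ M ^ 2 * (1 / N) := mul_le_mul_of_nonneg_left h' (by positivity)
      _ = M ^ 2 / N := by ring
  have hprod : |P.y i * (e - P.x i)| ≤ (M + B * M) * (M / N) := by
    rw [abs_mul]
    exact mul_le_mul hyi hxi (abs_nonneg _) (by positivity)
  have hsplit : zc Λ (((i : ℝ) + 1 / 2) / N) - zc Λ 0 - P.l i e =
      (zc Λ (((i : ℝ) + 1 / 2) / N) - zc Λ ((i : ℝ) / N)) -
        (P.z i - (zc Λ ((i : ℝ) / N) - zc Λ 0)) - P.y i * (e - P.x i) := by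
    unfold Pg.l; ring
  rw [hsplit]
  have ht : (3 + 2 * B) * M ^ 2 / N =
      M ^ 2 / N + (M ^ 2 + B * M ^ 2) / N + (M + B * M) * (M / N) := by
    field_simp; ring
  rw [ht]
  rw [abs_le] at hzz hz hprod ⊢
  constructor <;> linarith [hzz.1, hzz.2, hz.1, hz.2, hprod.1, hprod.2]

end FAR

theorem t_FAR : Stmt_FAR := by
  intro hBAS hMUB hZAP hHLN hCRS hSGN Λ M η c ρ σ N hb hn hS P hP e p q p' q' h1 h2 hl hr
  have hN : (0 : ℝ) < N := by exact_mod_cast hn.n1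
  have hM1 := hn.M1
  have hM : 0 < M := by linarith
  have hc := hn.c0
  obtain ⟨-, hmu⟩ := hMUB Λ M η c hn.M1 hn.c0 hb N hn.n1 hn.n2
  have n5 := hn.n5
  have he1 := fun i hi => (hCRS Λ N P hn.n1 hP e p q h1 i hi)
  have he2 := fun i hi => (hCRS Λ N P hn.n1 hP e p' q' h2 i hi)
  have hest := fun (i : ℤ) (u : ℝ) (hu : u ∈ Icc ((i : ℝ) / N) (((i : ℝ) + 1) / N))
    (hx : Λ.x u = e) => FAR.est hBAS hMUB hZAP hb hn hP hu hx
  set B := 4 * M ^ 2 / c ^ 2 with hB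
  have hB0 : 0 ≤ B := by positivity
  have hMM : M ≤ M ^ 2 := by nlinarith
  have hBM : B * M ≤ B * M ^ 2 := mul_le_mul_of_nonneg_left hMM hB0
  have hA : (6 + 4 * B) * M ^ 2 / N < σ := by rwa [div_lt_iff₀ hN]
  have hk1 : M / N + 4 * (B * M) / N < σ := by
    have : M / N + 4 * (B * M) / N ≤ (6 + 4 * B) * M ^ 2 / N := by
      rw [← add_div]; gcongr; nlinarith
    linarith
  have hk2 : 2 * M / N < σ := by
    have : 2 * M / N ≤ (6 + 4 * B) * M ^ 2 / N := by gcongr; nlinarith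
    linarith
  have hMN : 0 < M / N := by positivity
  have hq : 4 * (B * M) / N = 2 * (2 * B * M / N) := by ring
  refine hSGN P.y p q p' q' (σ - 2 * B * M / N) (by linarith [show 0 ≤ 2 * B * M / N by positivity])
    h1.le h2.le ?_ ?_
  · intro i hi j hj
    obtain ⟨u, hu, hxu⟩ := he1 i hi
    obtain ⟨v, hv, hxv⟩ := he2 j hj
    obtain ⟨a1, a2, a3⟩ := hest i u hu hxu
    obtain ⟨b1, b2, b3⟩ := hest j v hv hxv
    obtain ⟨r1, r2⟩ := hr i hi j hj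
    have e1 : P.l i e = P.l p e := hHLN N P e p q h1 i hi
    have e2 : P.l j e = P.l p' e := hHLN N P e p' q' h2 j hj
    rw [e1, hl, ← e2] at a2
    have hd : ((j : ℝ) + 1 / 2) / N - ((i : ℝ) + 1 / 2) / N = ((j : ℝ) - i) / N := by ring
    have hs := hS (((i : ℝ) + 1 / 2) / N) (((j : ℝ) + 1 / 2) / N)
      (by rw [hd, le_div_iff₀ hN]; exact r1) (by rw [hd, div_le_iff₀ hN]; exact r2)
    have ht : (6 + 4 * B) * M ^ 2 / N =
        (3 + 2 * B) * M ^ 2 / N + (3 + 2 * B) * M ^ 2 / N := by ring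
    have hxx : |Λ.x (((i : ℝ) + 1 / 2) / N) - Λ.x (((j : ℝ) + 1 / 2) / N)| < σ := by
      have : 2 * M / N = M / N + M / N := by ring
      rw [abs_le] at a1 b1
      rw [abs_lt]
      constructor <;> linarith [a1.1, a1.2, b1.1, b1.2]
    have hzz : |zc Λ (((i : ℝ) + 1 / 2) / N) - zc Λ (((j : ℝ) + 1 / 2) / N)| < σ := by
      rw [abs_le] at a2 b2
      rw [abs_lt]
      constructor <;> linarith [a2.1, a2.2, b2.1, b2.2]
    have hyy : σ ≤ |Λ.y (((i : ℝ) + 1 / 2) / N) - Λ.y (((j : ℝ) + 1 / 2) / N)| := by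
      rcases hs with h | h | h
      · exact absurd h (not_le.mpr hxx)
      · exact h
      · exact absurd h (not_le.mpr hzz)
    have e3 : B * M / N = (2 * B * M / N) / 2 := by ring
    rw [e3] at a3 b3
    rw [abs_le] at a3 b3
    rcases le_abs.mp hyy with h | h
    · refine le_abs.mpr (Or.inl ?_)
      linarith [a3.1, a3.2, b3.1, b3.2]
    · refine le_abs.mpr (Or.inr ?_)
      linarith [a3.1, a3.2, b3.1, b3.2]
  · intro i
    obtain ⟨-, hPy, -⟩ := hP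
    have hD1 := FAR.D_le hb.xl hn.n1 i
    have hD2 := FAR.D_le hb.xl hn.n1 (i + 1)
    have hyl := hb.yl ((((i + 1 : ℤ) : ℝ) + 1 / 2) / N) (((i : ℝ) + 1 / 2) / N)
    have e1 : (((i + 1 : ℤ) : ℝ) + 1 / 2) / N - ((i : ℝ) + 1 / 2) / N = 1 / N := by
      push_cast; ring
    rw [e1, abs_of_pos (show (0 : ℝ) < 1 / N by positivity)] at hyl
    have e2 : M * (1 / N) = M / N := by ring
    rw [e2] at hyl
    have m1 : |mu Λ N * (x0 Λ N (i + 1) - x0 Λ N i)| ≤ B * M / N := by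
      rw [abs_mul]
      calc _ ≤ B * (M / N) := mul_le_mul hmu hD1 (abs_nonneg _) hB0
        _ = B * M / N := by ring
    have m2 : |mu Λ N * (x0 Λ N (i + 1 + 1) - x0 Λ N (i + 1))| ≤ B * M / N := by
      rw [abs_mul]
      calc _ ≤ B * (M / N) := mul_le_mul hmu hD2 (abs_nonneg _) hB0
        _ = B * M / N := by ring
    have e3 : P.y (i + 1) - P.y i =
        (Λ.y ((((i + 1 : ℤ) : ℝ) + 1 / 2) / N) - Λ.y (((i : ℝ) + 1 / 2) / N)) -
          mu Λ N * (x0 Λ N (i + 1 + 1) - x0 Λ N (i + 1)) + mu Λ N * (x0 Λ N (i + 1) - x0 Λ N i) := by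
      rw [hPy]; unfold y1 y0; ring
    rw [e3]
    have e4 : B * M / N = (2 * B * M / N) / 2 := by ring
    rw [e4] at m1 m2
    rw [abs_le] at hyl m1 m2
    rw [abs_lt]
    constructor <;> linarith [hyl.1, hyl.2, m1.1, m1.2, m2.1, m2.2]

end LHS
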