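import Pool.Agent.LHS.Stmts

namespace LHS

open Set LH LC Filter
open scoped ContDiff Topology

namespace FIN

theorem rv_symm {Λ Λ' : LegKnot} (h : Rv Λ Λ') : Rv Λ' Λ := by
  intro u
  have := h (-u)
  rw [neg_neg] at this
  exact this.symm

/-- three arrows -/
theorem chain (hPEX : Stmt_PEX) (hFPE : P_FPE) {Λ A B Λ₁ : LegKnot} (h1 : FP Λ A) (h2 : FP A B)
    (h3 : FP B Λ₁) : ∃ N₀ : ℕ, ∀ N ≥ N₀, ∃ P P₁ : Pg N, IsPN Λ N P ∧ IsPN Λ₁ N P₁ ∧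
      Relation.TransGen EPath P P₁ := by
  obtain ⟨n1, h1⟩ := hFPE _ _ h1
  obtain ⟨n2, h2⟩ := hFPE _ _ h2
  obtain ⟨n3, h3⟩ := hFPE _ _ h3
  refine ⟨n1 + n2 + n3 + 1, fun N hN => ?_⟩
  obtain ⟨P, hP⟩ := hPEX Λ N (by omega)
  obtain ⟨PA, hPA⟩ := hPEX A N (by omega)
  obtain ⟨PB, hPB⟩ := hPEX B N (by omega)
  obtain ⟨P₁, hP₁⟩ := hPEX Λ₁ N (by omega)
  refine ⟨P, P₁, hP, hP₁, ?_⟩
  exact Relation.TransGen.tail (Relation.TransGen.tail (Relation.TransGen.single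
    (h1 N (by omega) _ _ hP hPA)) (h2 N (by omega) _ _ hPA hPB)) (h3 N (by omega) _ _ hPB hP₁)

end FIN

open FIN in
theorem t_FIN : Stmt_FIN := by
  intro hRVX hRVS hRVF hPSF hCAR hPEX hFPE Λ Λ' Λ'' hiso hst
  obtain ⟨H, hH, h0, h1⟩ := hiso
  have hAB : FP (H 0) (H 1) := ⟨H, hH, rfl, rfl⟩
  have hA := hCAR Λ (H 0) h0.symm
  have hB := hCAR Λ' (H 1) h1.symm
  obtain ⟨Λr, hΛr⟩ := hRVX Λ
  obtain ⟨Λ'r, hΛ'r⟩ := hRVX Λ'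
  obtain ⟨Λ''r, hΛ''r⟩ := hRVX Λ''
  obtain ⟨Ar, hAr⟩ := hRVX (H 0)
  obtain ⟨Br, hBr⟩ := hRVX (H 1)
  have hst' : IsStabilization Λ'r Λ''r := hRVS _ _ _ _ hst hΛ'r hΛ''r
  have hABr : FP Ar Br := hRVF _ _ _ _ hAB hAr hBr
  rcases hA with hA | hA
  · have h1 : FP Λ (H 0) := (hPSF _ _ hA).1
    rcases hB with hB | hB
    · exact ⟨Λ', Λ'', hst, chain hPEX hFPE h1 hAB (hPSF _ _ hB).2⟩
    · exact ⟨Λ'r, Λ''r, hst', chain hPEX hFPE h1 hAB (hPSF _ _ (hB _ hΛ'r)).2⟩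
  · have h1 : FP Λ Ar := hRVF _ _ _ _ (hPSF _ _ (hA _ hΛr)).1 (rv_symm hΛr) hAr
    rcases hB with hB | hB
    · exact ⟨Λ'r, Λ''r, hst', chain hPEX hFPE h1 hABr
        (hRVF _ _ _ _ (hPSF _ _ hB).2 hBr hΛ'r)⟩
    · exact ⟨Λ', Λ'', hst, chain hPEX hFPE h1 hABr
        (hRVF _ _ _ _ (hPSF _ _ (hB _ hΛ'r)).2 hBr (rv_symm hΛ'r))⟩

end LHS
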