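import Pool.Agent.LHS.Stmts

/-!
# FPE: the ends of a family are joined by a path for large `N`
-/

namespace LHS

open Set LH LC Filter
open scoped ContDiff Topology

namespace FPE

theorem legKnot_ext {Λ Λ' : LegKnot} (h : Λ.γ = Λ'.γ) : Λ = Λ' := by
  cases Λ
  cases Λ'
  simp only at h
  subst h
  rfl

theorem exists_nl {M η c σ : ℝ} (hM : 1 ≤ M) (hη : 0 < η) (hc : 0 < c) (hσ : 0 < σ) :
    ∃ N₀ : ℕ, ∀ N ≥ N₀, NL M η c σ N := by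
  obtain ⟨N₀, hN₀⟩ := exists_nat_gt (max 1 (max (2 * M / c) (max (2 * (4 * M ^ 2 / c ^ 2) * M / η)
    (max (12 * M / η) ((6 + 4 * (4 * M ^ 2 / c ^ 2)) * M ^ 2 / σ)))))
  refine ⟨N₀, fun N hN => ?_⟩
  have hN' : (N₀ : ℝ) ≤ N := by exact_mod_cast hN
  have h := lt_of_lt_of_le hN₀ hN'
  simp only [max_lt_iff] at h
  obtain ⟨h1, h2, h3, h4, h5⟩ := h
  rw [div_lt_iff₀ hc] at h2
  rw [div_lt_iff₀ hη] at h3 h4
  rw [div_lt_iff₀ hσ] at h5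
  refine ⟨hM, hη, hc, ?_, ?_, ?_, ?_, ?_⟩
  · have : (1 : ℝ) < (N : ℝ) := h1
    have h6 : 1 < N := by exact_mod_cast this
    omega
  · linarith [mul_comm c (N : ℝ)]
  · linarith [mul_comm η (N : ℝ)]
  · linarith [mul_comm η (N : ℝ)]
  · linarith [mul_comm σ (N : ℝ)]

end FPE

theorem t_FPE : Stmt_FPE := by
  intro hBD1 hBD2 hBD3 hSGM hMUB hEMB hPTH Λ Λ' hFP
  obtain ⟨K, hK, h0, h1⟩ := hFP
  obtain ⟨M, hM, hb1⟩ := hBD1 K hK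
  obtain ⟨η, hη, hb2⟩ := hBD2 K hK
  obtain ⟨c, hc, hb3⟩ := hBD3 K hK
  have hρ : 0 < η / (4 * M) := by positivity
  obtain ⟨σ, hσ, hs⟩ := hSGM K hK (η / (4 * M)) hρ
  obtain ⟨N₀, hN₀⟩ := FPE.exists_nl hM hη hc hσ
  have hBd : ∀ t ∈ Icc (0 : ℝ) 1, Bd (K t) M η c := fun t ht =>
    ⟨(hb1 t ht).1, (hb1 t ht).2.1, (hb1 t ht).2.2.1, (hb1 t ht).2.2.2, hb2 t ht, hb3 t ht⟩
  refine ⟨N₀, fun N hN P P' hP hP' => ?_⟩
  have hNL := hN₀ N hN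
  have e0 : K 0 = Λ := FPE.legKnot_ext h0
  have e1 : K 1 = Λ' := FPE.legKnot_ext h1
  refine hPTH K N hK hNL.n1 ?_ ?_ P P' ?_ ?_
  · intro t ht
    exact (hMUB (K t) M η c hM hc (hBd t ht) N hNL.n1 hNL.n2).1
  · intro t ht Q hQ
    exact hEMB (K t) M η c σ N (hBd t ht) hNL (hs t ht) Q hQ
  · rw [e0]; exact hP
  · rw [e1]; exact hP'

end LHS
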