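import Pool.Agent.LHS.Stmts

/-! Module LHS_HLN: the edges of a component over `e` have the same height at `e`. -/

open Set LH LC Filter
open scoped ContDiff Topology

namespace LHS

theorem HLN.aux {N : ℕ} (P : Pg N) (e : ℝ) (p q : ℤ) (h : CompE P e p q) :
    ∀ k : ℕ, p + 1 + k ≤ q → P.z (p + 1 + k) = P.z (p + 1) := by
  intro k
  induction k with
  | zero =>
    intro _
    simp
  | succ k ih =>
    intro hk
    push_cast at hk
    have h1 := ih (by omega)
    have h2 := P.cl (p + 1 + k)
    have h3 : P.x (p + 1 + k) = e := h.ins _ (by omega) (by omega)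
    have h4 : P.x (p + 1 + k + 1) = e := h.ins _ (by omega) (by omega)
    rw [h3, h4, sub_self, mul_zero, add_zero, h1] at h2
    push_cast
    rw [← add_assoc]
    exact h2

theorem t_HLN : Stmt_HLN := by
  intro N P e p q h i hi
  rcases eq_or_lt_of_le hi.1 with h0 | h0
  · rw [h0]
  · have h1 : P.x i = e := h.ins i h0 hi.2
    have h2 : P.x (p + 1) = e := h.ins (p + 1) (by omega) (by have := hi.2; omega)
    have h3 := P.cl p
    have h4 : P.z i = P.z (p + 1) := by
      have h5 := HLN.aux P e p q h (i - (p + 1)).toNat (by have := hi.2; omega)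
      have h6 : p + 1 + ((i - (p + 1)).toNat : ℤ) = i := by omega
      rw [h6] at h5
      exact h5
    unfold Pg.l
    rw [h1, sub_self, mul_zero, add_zero, h4, h3, h2]

end LHS
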