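import Pool.Agent.LHS.Stmts

/-!
# LFT: knots with the same carrier differ by a continuous change of the parameter
-/

namespace LHS

open Set LH LC Filter
open scoped ContDiff Topology

namespace LFT

/-- The knot as a map of the circle. -/
noncomputable def circ (Λ : LegKnot) : AddCircle (1 : ℝ) → R3 :=
  Function.Periodic.lift (f := Λ.γ) (c := (1 : ℝ)) Λ.periodic

theorem circ_coe (Λ : LegKnot) (u : ℝ) : circ Λ (u : AddCircle (1 : ℝ)) = Λ.γ u := rfl

theorem circ_continuous (Λ : LegKnot) : Continuous (circ Λ) := by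
  have h : Continuous Λ.γ := Λ.smooth.continuous
  exact continuous_coinduced_dom.mpr h

theorem circ_injective (Λ : LegKnot) : Function.Injective (circ Λ) := by
  intro a b hab
  obtain ⟨u, rfl⟩ := QuotientAddGroup.mk_surjective a
  obtain ⟨v, rfl⟩ := QuotientAddGroup.mk_surjective b
  have h : Λ.γ u = Λ.γ v := hab
  obtain ⟨k, hk⟩ := Λ.injective u v h
  have h2 : ((v - u : ℝ) : AddCircle (1 : ℝ)) = 0 := by
    rw [AddCircle.coe_eq_zero_iff]
    exact ⟨k, by rw [hk]; simp⟩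
  have h3 : ((v : ℝ) : AddCircle (1 : ℝ)) = (u : AddCircle (1 : ℝ)) := by
    rw [AddCircle.coe_sub, sub_eq_zero] at h2
    exact h2
  exact h3.symm

end LFT

theorem t_LFT : Stmt_LFT := by
  intro Λ Λ' hcar
  haveI : Fact ((0 : ℝ) < 1) := ⟨zero_lt_one⟩
  have hemb : Topology.IsClosedEmbedding (LFT.circ Λ') :=
    (LFT.circ_continuous Λ').isClosedEmbedding (LFT.circ_injective Λ')
  have hex : ∀ u : ℝ, ∃ a : AddCircle (1 : ℝ), LFT.circ Λ' a = Λ.γ u := by
    intro u
    have h1 : Λ.γ u ∈ Λ'.carrier := by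
      rw [← hcar]
      exact ⟨u, rfl⟩
    obtain ⟨v, hv⟩ := h1
    exact ⟨(v : AddCircle (1 : ℝ)), hv⟩
  choose θ hθ using hex
  have hθc : Continuous θ := by
    rw [hemb.isEmbedding.continuous_iff]
    have h2 : (LFT.circ Λ') ∘ θ = Λ.γ := funext hθ
    rw [h2]
    exact Λ.smooth.continuous
  obtain ⟨e₀, he₀⟩ := QuotientAddGroup.mk_surjective (θ 0)
  obtain ⟨F, ⟨-, hF⟩, -⟩ :=
    (AddCircle.isCoveringMap_coe (1 : ℝ)).existsUnique_continuousMap_lifts
      (⟨θ, hθc⟩ : C(ℝ, AddCircle (1 : ℝ))) 0 e₀ he₀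
  refine ⟨F, F.continuous, fun u => ?_⟩
  have h3 : ((F u : ℝ) : AddCircle (1 : ℝ)) = θ u := congrFun hF u
  have h4 := hθ u
  rw [← h3] at h4
  exact h4.symm

end LHS
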