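import Pool.Agent.LHS.Stmts

/-!
# Part C, smooth side: near components
-/

namespace LHS

open Set LH LC Filter
open scoped ContDiff Topology

namespace NEA

/-- A strictly monotone component has at most two edges. -/
theorem short {N : ℕ} {P : Pg N} {e : ℝ} {p q : ℤ} (h : CompE P e p q)
    (hm : StrictMonoOn P.x (Icc p (q + 1)) ∨ StrictAntiOn P.x (Icc p (q + 1))) : q ≤ p + 1 := by
  by_contra hq
  push Not at hq
  have h1 : P.x (p + 1) = e := h.ins (p + 1) (by omega) (by omega)
  have h2 : P.x (p + 2) = e := h.ins (p + 2) (by omega) (by omega)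
  have m1 : p + 1 ∈ Icc p (q + 1) := ⟨by omega, by omega⟩
  have m2 : p + 2 ∈ Icc p (q + 1) := ⟨by omega, by omega⟩
  rcases hm with hm | hm
  · have := hm m1 m2 (by omega)
    rw [h1, h2] at this
    exact lt_irrefl _ this
  · have := hm m1 m2 (by omega)
    rw [h1, h2] at this
    exact lt_irrefl _ this

end NEA

theorem t_NEA : Stmt_NEA := by
  intro hBAS hCRS hZON Λ M η c σ N hB hN P hP e p q p' q' hc hc' hqp i hi j hj hij u hu
  obtain ⟨hsx, -, -, -, -, -, hdx, -, -, -, -⟩ := hBAS Λ
  have hM : 1 ≤ M := hN.M1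
  have hη : 0 < η := hN.η0
  have hN0 : (0 : ℝ) < N := by exact_mod_cast hN.n1
  have h12 : 2 * M / N ≤ η / 6 := by
    rw [div_le_iff₀ hN0]
    have := hN.n4
    nlinarith
  obtain ⟨u1, hu1, hxu⟩ := hCRS Λ N P hN.n1 hP e p q hc i hi
  obtain ⟨v1, hv1, hxv⟩ := hCRS Λ N P hN.n1 hP e p' q' hc' j hj
  have hi1 : i + 1 ≤ j := by
    have := hi.2
    have := hj.1
    omega
  have hi1' : (i : ℝ) + 1 ≤ j := by exact_mod_cast hi1
  have huv : u1 ≤ v1 := hu1.2.trans ((div_le_div_of_nonneg_right hi1' hN0.le).trans hv1.1)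
  have huv' : u1 < v1 := by
    rcases huv.lt_or_eq with h | h
    · exact h
    · exfalso
      have h1 : u1 = ((i : ℝ) + 1) / N :=
        le_antisymm hu1.2 (((div_le_div_of_nonneg_right hi1' hN0.le).trans hv1.1).trans h.ge)
      have h2 : (j : ℝ) / N ≤ ((i : ℝ) + 1) / N := by
        rw [← h1, h]
        exact hv1.1
      have h3 : (j : ℝ) ≤ (i : ℝ) + 1 := (div_le_div_iff_of_pos_right hN0).1 h2
      have h4 : j ≤ i + 1 := by exact_mod_cast h3
      have h5 : i = q := by
        have := hi.2
        have := hj.1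
        omega
      subst h5
      refine hc.lst ?_
      rw [hP.1]
      unfold x0
      push_cast
      rw [← h1]
      exact hxu
  obtain ⟨w, hw, hw0⟩ := exists_deriv_eq_zero huv' (hsx.continuous.continuousOn)
    (hxu.trans hxv.symm)
  have hwl : (i : ℝ) / N ≤ w := hu1.1.trans hw.1.le
  have hwr : w ≤ ((j : ℝ) + 1) / N := hw.2.le.trans hv1.2
  have key : ∀ u : ℝ, ((i : ℝ) - 1) / N ≤ u → u ≤ ((j : ℝ) + 2) / N → |deriv Λ.x u| < η := by
    intro u hl hr
    have h1 := hB.xd u w
    rw [hw0, sub_zero] at h1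
    have h2 : |u - w| ≤ ((j : ℝ) - i + 2) / N := by
      rw [abs_le]
      constructor
      · have e1 : -(((j : ℝ) - i + 2) / N) = ((i : ℝ) - 1) / N - ((j : ℝ) + 1) / N := by ring
        rw [e1]
        linarith
      · have e1 : ((j : ℝ) - i + 2) / N = ((j : ℝ) + 2) / N - (i : ℝ) / N := by ring
        rw [e1]
        linarith
    have h3 : ((j : ℝ) - i + 2) / N ≤ η / (4 * M) + 2 / N := by
      rw [add_div]
      have : ((j : ℝ) - i) / N ≤ η / (4 * M) := by
        rw [div_le_iff₀ hN0]
        exact hij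
      linarith
    have h4 : M * |u - w| ≤ M * (η / (4 * M) + 2 / N) :=
      mul_le_mul_of_nonneg_left (h2.trans h3) (by linarith)
    have h5 : M * (η / (4 * M) + 2 / N) = η / 4 + 2 * M / N := by
      field_simp
    rw [h5] at h4
    linarith
  have hiq : (i : ℝ) ≤ q := by exact_mod_cast hi.2
  have hqp' : (q : ℝ) + 1 ≤ p' := by exact_mod_cast hqp
  have hpj : (p' : ℝ) ≤ j := by exact_mod_cast hj.1
  rcases le_total u (((q : ℝ) + 1) / N) with h | h
  · rcases hZON Λ M η c hB N hN.n1 P hP e p q hc with hm | hz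
    · have h1 := NEA.short hc hm
      have h2 : (i : ℝ) - 1 ≤ p := by
        have : i - 1 ≤ p := by
          have := hi.2
          omega
        exact_mod_cast this
      refine key u ((div_le_div_of_nonneg_right h2 hN0.le).trans hu.1) (h.trans ?_)
      exact div_le_div_of_nonneg_right (by linarith) hN0.le
    · have := hz u ⟨hu.1, h⟩
      linarith
  · rcases le_total u ((p' : ℝ) / N) with h' | h'
    · refine key u (le_trans ?_ h) (h'.trans ?_)
      · exact div_le_div_of_nonneg_right (by linarith) hN0.le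
      · exact div_le_div_of_nonneg_right (by linarith) hN0.le
    · rcases hZON Λ M η c hB N hN.n1 P hP e p' q' hc' with hm | hz
      · have h1 := NEA.short hc' hm
        have h2 : (q' : ℝ) + 1 ≤ j + 2 := by
          have : q' + 1 ≤ j + 2 := by
            have := hj.1
            omega
          exact_mod_cast this
        refine key u (le_trans ?_ h) (hu.2.trans (div_le_div_of_nonneg_right h2 hN0.le))
        exact div_le_div_of_nonneg_right (by linarith) hN0.le
      · have := hz u ⟨h', hu.2⟩
        linarith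

end LHS
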