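import Pool.Agent.LHS.Stmts

/-!
# The polygon of a knot exists
-/

namespace LHS

open Set LH LC Filter
open scoped ContDiff Topology

namespace PEX

/-- The primitive of a function on the integers. -/
noncomputable def S (s : ℤ → ℝ) : ℤ → ℝ
  | Int.ofNat n => ∑ j ∈ Finset.range n, s j
  | Int.negSucc n => - ∑ j ∈ Finset.range (n + 1), s (-((j : ℤ) + 1))

theorem S_zero (s : ℤ → ℝ) : S s 0 = 0 := by
  change S s (Int.ofNat 0) = 0
  simp [S]

theorem S_nat (s : ℤ → ℝ) (n : ℕ) : S s (n : ℤ) = ∑ j ∈ Finset.range n, s j := by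
  change S s (Int.ofNat n) = _
  simp only [S]

theorem S_succ (s : ℤ → ℝ) (i : ℤ) : S s (i + 1) = S s i + s i := by
  rcases i with n | n
  · have h1 : (Int.ofNat n : ℤ) + 1 = ((n + 1 : ℕ) : ℤ) := by simp
    have h2 : (Int.ofNat n : ℤ) = (n : ℤ) := rfl
    rw [h1, h2, S_nat, S_nat, Finset.sum_range_succ]
  · rcases n with _ | n
    · have h1 : (Int.negSucc 0 : ℤ) + 1 = 0 := rfl
      rw [h1, S_zero]
      change 0 = - ∑ j ∈ Finset.range (0 + 1), s (-((j : ℤ) + 1)) + s (Int.negSucc 0)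
      rw [Finset.sum_range_one]
      have h2 : (Int.negSucc 0 : ℤ) = -(((0 : ℕ) : ℤ) + 1) := rfl
      rw [h2]
      ring
    · have h1 : (Int.negSucc (n + 1) : ℤ) + 1 = Int.negSucc n := by
        rw [Int.negSucc_eq, Int.negSucc_eq]
        push_cast
        ring
      rw [h1]
      change - ∑ j ∈ Finset.range (n + 1), s (-((j : ℤ) + 1)) =
        - ∑ j ∈ Finset.range (n + 1 + 1), s (-((j : ℤ) + 1)) + s (Int.negSucc (n + 1))
      rw [Finset.sum_range_succ _ (n + 1)]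
      have h2 : (Int.negSucc (n + 1) : ℤ) = -(((n + 1 : ℕ) : ℤ) + 1) := by
        rw [Int.negSucc_eq]
      rw [h2]
      ring

theorem S_per (s : ℤ → ℝ) (N : ℕ) (hs : ∀ i, s (i + N) = s i)
    (h0 : ∑ j ∈ Finset.range N, s j = 0) (i : ℤ) : S s (i + N) = S s i := by
  have key : ∀ i, S s (i + 1 + N) - S s (i + 1) = S s (i + N) - S s i := by
    intro i
    have h1 : i + 1 + N = i + N + 1 := by ring
    rw [h1, S_succ, S_succ, hs]
    ring
  have h : S s (i + N) - S s i = 0 := by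
    induction i using Int.induction_on with
    | zero => rw [zero_add, S_nat, S_zero, h0, sub_zero]
    | succ i ih => rw [key, ih]
    | pred i ih =>
      have := key (-(i : ℤ) - 1)
      rw [sub_add_cancel] at this
      rw [← this, ih]
  linarith

theorem x_per (Λ : LegKnot) (u : ℝ) : Λ.x (u + 1) = Λ.x u := by
  unfold LegKnot.x
  rw [Λ.periodic]

theorem y_per (Λ : LegKnot) (u : ℝ) : Λ.y (u + 1) = Λ.y u := by
  unfold LegKnot.y
  rw [Λ.periodic]

theorem x0_per (Λ : LegKnot) (N : ℕ) (hN : 1 ≤ N) (i : ℤ) : x0 Λ N (i + N) = x0 Λ N i := by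
  have hN' : (N : ℝ) ≠ 0 := by
    have : (0 : ℝ) < N := by exact_mod_cast hN
    exact this.ne'
  unfold x0
  have : (((i + N : ℤ) : ℝ)) / N = (i : ℝ) / N + 1 := by
    push_cast
    field_simp
  rw [this, x_per]

theorem y0_per (Λ : LegKnot) (N : ℕ) (hN : 1 ≤ N) (i : ℤ) : y0 Λ N (i + N) = y0 Λ N i := by
  have hN' : (N : ℝ) ≠ 0 := by
    have : (0 : ℝ) < N := by exact_mod_cast hN
    exact this.ne'
  unfold y0
  have : (((i + N : ℤ) : ℝ) + 1 / 2) / N = ((i : ℝ) + 1 / 2) / N + 1 := by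
    push_cast
    field_simp
    ring
  rw [this, y_per]

theorem D_per (Λ : LegKnot) (N : ℕ) (hN : 1 ≤ N) (i : ℤ) :
    x0 Λ N (i + N + 1) - x0 Λ N (i + N) = x0 Λ N (i + 1) - x0 Λ N i := by
  have h1 : i + N + 1 = i + 1 + N := by ring
  rw [h1, x0_per Λ N hN, x0_per Λ N hN]

theorem y1_per (Λ : LegKnot) (N : ℕ) (hN : 1 ≤ N) (i : ℤ) : y1 Λ N (i + N) = y1 Λ N i := by
  unfold y1
  rw [y0_per Λ N hN, D_per Λ N hN]

theorem sum_zero (Λ : LegKnot) (N : ℕ) :
    ∑ j ∈ Finset.range N, y1 Λ N j * (x0 Λ N ((j : ℤ) + 1) - x0 Λ N j) = 0 := by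
  have h1 : ∑ j ∈ Finset.range N, y1 Λ N j * (x0 Λ N ((j : ℤ) + 1) - x0 Λ N j) =
      (∑ j ∈ Finset.range N, y0 Λ N j * (x0 Λ N ((j : ℤ) + 1) - x0 Λ N j)) -
        mu Λ N * ∑ j ∈ Finset.range N, (x0 Λ N ((j : ℤ) + 1) - x0 Λ N j) ^ 2 := by
    rw [Finset.mul_sum, ← Finset.sum_sub_distrib]
    apply Finset.sum_congr rfl
    intro j _
    unfold y1
    ring
  by_cases hd : ∑ j ∈ Finset.range N, (x0 Λ N ((j : ℤ) + 1) - x0 Λ N j) ^ 2 = 0
  · have h2 := (Finset.sum_eq_zero_iff_of_nonneg (fun j _ => sq_nonneg _)).mp hd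
    apply Finset.sum_eq_zero
    intro j hj
    have h3 := pow_eq_zero_iff (two_ne_zero) |>.mp (h2 j hj)
    rw [h3, mul_zero]
  · rw [h1]
    unfold mu
    rw [div_mul_cancel₀ _ hd, sub_self]

end PEX

/-- The polygon exists. -/
theorem t_PEX : Stmt_PEX := by
  intro Λ N hN
  let s : ℤ → ℝ := fun i => y1 Λ N i * (x0 Λ N (i + 1) - x0 Λ N i)
  have hpz : ∀ i, PEX.S s (i + N) = PEX.S s i := by
    apply PEX.S_per
    · intro i
      change y1 Λ N (i + N) * (x0 Λ N (i + N + 1) - x0 Λ N (i + N)) =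
        y1 Λ N i * (x0 Λ N (i + 1) - x0 Λ N i)
      rw [PEX.y1_per Λ N hN, PEX.D_per Λ N hN]
    · exact PEX.sum_zero Λ N
  let P : Pg N :=
    { x := x0 Λ N
      y := y1 Λ N
      z := PEX.S s
      px := PEX.x0_per Λ N hN
      py := PEX.y1_per Λ N hN
      pz := hpz
      cl := PEX.S_succ s }
  exact ⟨P, rfl, rfl, PEX.S_zero s⟩

end LHS
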