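import Pool.Agent.LHS.Stmts

/-!
# Reparametrised knots are the ends of smooth families
-/

namespace LHS

open Set LH LC Filter
open scoped ContDiff Topology

namespace PSF

/-- The knot in another parametrisation. -/
noncomputable def rep (Λ : LegKnot) (ψ : ℝ → ℝ) (h1 : ContDiff ℝ ∞ ψ) (h2 : ∀ u, 0 < deriv ψ u)
    (h3 : ∀ u, ψ (u + 1) = ψ u + 1) : LegKnot :=
  have hd : ∀ u, deriv (fun v => Λ.γ (ψ v)) u = deriv ψ u • deriv Λ.γ (ψ u) := fun u => by
    have d1 : HasDerivAt Λ.γ (deriv Λ.γ (ψ u)) (ψ u) :=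
      ((Λ.smooth.differentiable (by simp)) (ψ u)).hasDerivAt
    have d2 : HasDerivAt ψ (deriv ψ u) u := ((h1.differentiable (by simp)) u).hasDerivAt
    exact (d1.scomp u d2).deriv
  { γ := fun u => Λ.γ (ψ u)
    smooth := Λ.smooth.comp h1
    periodic := fun u => by rw [h3, Λ.periodic]
    immersion := fun u => by
      rw [hd u]
      exact smul_ne_zero (h2 u).ne' (Λ.immersion _)
    injective := fun u v h => by
      obtain ⟨k, hk⟩ := Λ.injective _ _ h
      refine ⟨k, ?_⟩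
      have hz : ∀ (k : ℤ) (u : ℝ), ψ (u + k) = ψ u + k := by
        intro k
        induction k using Int.induction_on with
        | zero => intro u; simp
        | succ i ih =>
          intro u
          have e : u + ((i : ℤ) + 1 : ℤ) = (u + ((i : ℤ) : ℝ)) + 1 := by push_cast; ring
          rw [e, h3, ih u]
          push_cast
          ring
        | pred i ih =>
          intro u
          have e : ψ ((u + (-(i : ℤ) - 1 : ℤ)) + 1) = ψ (u + ((-(i : ℤ) : ℤ) : ℝ)) := by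
            congr 1
            push_cast
            ring
          rw [h3, ih u] at e
          push_cast at e ⊢
          linarith
      have hm : StrictMono ψ := strictMono_of_deriv_pos h2
      apply hm.injective
      rw [hk, hz]
    legendrian := fun u => by
      rw [hd u]
      have h := Λ.legendrian (ψ u)
      unfold alpha at h ⊢
      have e1 : (deriv ψ u • deriv Λ.γ (ψ u)).2.2 = deriv ψ u * (deriv Λ.γ (ψ u)).2.2 := rfl
      have e2 : (deriv ψ u • deriv Λ.γ (ψ u)).1 = deriv ψ u * (deriv Λ.γ (ψ u)).1 := rfl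
      rw [e1, e2]
      linear_combination deriv ψ u * h }

theorem rep_γ (Λ : LegKnot) (ψ : ℝ → ℝ) (h1 : ContDiff ℝ ∞ ψ) (h2 : ∀ u, 0 < deriv ψ u)
    (h3 : ∀ u, ψ (u + 1) = ψ u + 1) (u : ℝ) : (rep Λ ψ h1 h2 h3).γ u = Λ.γ (ψ u) := rfl

theorem mix_smooth {φ : ℝ → ℝ} (h1 : ContDiff ℝ ∞ φ) (l : ℝ) :
    ContDiff ℝ ∞ (fun u => (1 - l) * φ u + l * u) := by fun_prop

theorem mix_deriv {φ : ℝ → ℝ} (h1 : ContDiff ℝ ∞ φ) (h2 : ∀ u, 0 < deriv φ u) {l : ℝ}
    (hl : 0 ≤ l ∧ l ≤ 1) (u : ℝ) : 0 < deriv (fun u => (1 - l) * φ u + l * u) u := by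
  have d2 : HasDerivAt φ (deriv φ u) u := ((h1.differentiable (by simp)) u).hasDerivAt
  have d := ((d2.const_mul (1 - l)).add ((hasDerivAt_id u).const_mul l)).deriv
  have e : deriv (fun u => (1 - l) * φ u + l * u) u = (1 - l) * deriv φ u + l * 1 := d
  rw [e, mul_one]
  rcases eq_or_lt_of_le hl.1 with h | h
  · rw [← h]
    have := h2 u
    linarith
  · have := mul_nonneg (sub_nonneg.2 hl.2) (h2 u).le
    linarith

theorem mix_per {φ : ℝ → ℝ} (h3 : ∀ u, φ (u + 1) = φ u + 1) (l u : ℝ) :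
    (1 - l) * φ (u + 1) + l * (u + 1) = ((1 - l) * φ u + l * u) + 1 := by
  rw [h3]
  ring

/-- A family between the parametrisations. -/
theorem fam (Λ : LegKnot) (φ : ℝ → ℝ) (h1 : ContDiff ℝ ∞ φ) (h2 : ∀ u, 0 < deriv φ u)
    (h3 : ∀ u, φ (u + 1) = φ u + 1) (c c₀ : ℝ → ℝ) (hc : ∀ s, 0 ≤ c s ∧ c s ≤ 1)
    (hc₀ : ContDiff ℝ ∞ c₀) (he : ∀ s ∈ Icc (0 : ℝ) 1, c s = c₀ s) :
    ∃ K : ℝ → LegKnot, Fam K ∧ ∀ s u, (K s).γ u = Λ.γ ((1 - c s) * φ u + c s * u) := by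
  refine ⟨fun s => rep Λ (fun u => (1 - c s) * φ u + c s * u) (mix_smooth h1 (c s))
    (mix_deriv h1 h2 (hc s)) (fun u => mix_per h3 (c s) u), ?_, fun s u => rfl⟩
  unfold Fam
  have hs : ContDiff ℝ ∞ (fun q : ℝ × ℝ => Λ.γ ((1 - c₀ q.1) * φ q.2 + c₀ q.1 * q.2)) := by
    have h4 := Λ.smooth
    fun_prop
  refine hs.contDiffOn.congr ?_
  rintro ⟨s, u⟩ ⟨hs1, -⟩
  show Λ.γ ((1 - c s) * φ u + c s * u) = Λ.γ ((1 - c₀ s) * φ u + c₀ s * u)
  rw [he s hs1]

end PSF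

open PSF in
theorem t_PSF : Stmt_PSF := by
  intro Λ Λ' hP
  obtain ⟨φ, h1, h2, h3, h4⟩ := hP
  have hcl : ∀ s : ℝ, 0 ≤ max 0 (min 1 s) ∧ max 0 (min 1 s) ≤ 1 := fun s =>
    ⟨le_max_left _ _, max_le zero_le_one (min_le_left _ _)⟩
  have hce : ∀ s ∈ Icc (0 : ℝ) 1, max 0 (min 1 s) = s := fun s hs => by
    rw [min_eq_right hs.2, max_eq_right hs.1]
  constructor
  · obtain ⟨K, hK, hγ⟩ := fam Λ' φ h1 h2 h3 (fun s => max 0 (min 1 s)) (fun s => s) hcl
      contDiff_id hce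
    refine ⟨K, hK, ?_, ?_⟩
    · funext u
      rw [hγ, h4]
      norm_num
    · funext u
      rw [hγ]
      norm_num
  · obtain ⟨K, hK, hγ⟩ := fam Λ' φ h1 h2 h3 (fun s => 1 - max 0 (min 1 s)) (fun s => 1 - s)
      (fun s => ⟨by linarith [(hcl s).2], by linarith [(hcl s).1]⟩)
      (contDiff_const.sub contDiff_id) (fun s hs => by rw [hce s hs])
    refine ⟨K, hK, ?_, ?_⟩
    · funext u
      rw [hγ]
      norm_num
    · funext u
      rw [hγ, h4]
      norm_num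

end LHS
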