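import Pool.Agent.LHS.Stmts

/-!
# PTH: a family of knots with embedded polygons gives a path
-/

set_option autoImplicit false

namespace LHS

open Set LH LC Filter
open scoped ContDiff Topology

namespace PTH

/-- Restriction of a continuous function to a horizontal line. -/
theorem line {f : ℝ × ℝ → ℝ} (hf : ContinuousOn f (Icc 0 1 ×ˢ univ)) (s : ℝ) :
    ContinuousOn (fun t => f (t, s)) (Icc (0 : ℝ) 1) :=
  hf.comp (Continuous.continuousOn (by fun_prop)) fun _ ht => ⟨ht, mem_univ _⟩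

end PTH

open PTH in
theorem t_PTH : Stmt_PTH := by
  intro hC hX K N hK hN hpos hemb P P' hP hP'
  obtain ⟨-, hx, hy, -⟩ := hC K hK
  have hx0 : ∀ i : ℤ, ContinuousOn (fun t => x0 (K t) N i) (Icc (0 : ℝ) 1) := fun i =>
    line hx ((i : ℝ) / N)
  have hy0 : ∀ i : ℤ, ContinuousOn (fun t => y0 (K t) N i) (Icc (0 : ℝ) 1) := fun i =>
    line hy (((i : ℝ) + 1 / 2) / N)
  have hmu : ContinuousOn (fun t => mu (K t) N) (Icc (0 : ℝ) 1) := by
    refine ContinuousOn.div ?_ ?_ fun t ht => (hpos t ht).ne'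
    · exact continuousOn_finsetSum _ fun i _ => (hy0 i).mul ((hx0 _).sub (hx0 _))
    · exact continuousOn_finsetSum _ fun i _ => ((hx0 _).sub (hx0 _)).pow 2
  have hy1 : ∀ i : ℤ, ContinuousOn (fun t => y1 (K t) N i) (Icc (0 : ℝ) 1) := fun i =>
    (hy0 i).sub (hmu.mul ((hx0 _).sub (hx0 _)))
  choose F hF using fun t => hX (K t) N hN
  have hFx : ∀ i, ContinuousOn (fun t => (F t).x i) (Icc (0 : ℝ) 1) := by
    intro i
    refine (hx0 i).congr fun t _ => ?_
    exact congrFun (hF t).1 i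
  have hFy : ∀ i, ContinuousOn (fun t => (F t).y i) (Icc (0 : ℝ) 1) := by
    intro i
    refine (hy1 i).congr fun t _ => ?_
    exact congrFun (hF t).2.1 i
  refine ⟨F, fun t ht => hemb t ht _ (hF t), hFx, hFy, ?_, ?_, ?_, ?_, ?_⟩
  · intro i
    induction i using Int.induction_on with
    | zero =>
      refine (continuousOn_const (c := (0 : ℝ))).congr fun t _ => ?_
      exact (hF t).2.2
    | succ i ih =>
      refine (ih.add ((hFy i).mul ((hFx (i + 1)).sub (hFx i)))).congr fun t _ => ?_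
      exact (F t).cl i
    | pred i ih =>
      refine (ih.sub ((hFy (-i - 1)).mul ((hFx (-i)).sub (hFx (-i - 1))))).congr fun t _ => ?_
      have h1 := (F t).cl (-i - 1)
      rw [sub_add_cancel] at h1
      show (F t).z (-i - 1) = (F t).z (-i) - (F t).y (-i - 1) * ((F t).x (-i) - (F t).x (-i - 1))
      rw [h1]
      ring
  · rw [(hF 0).1, hP.1]
  · rw [(hF 0).2.1, hP.2.1]
  · rw [(hF 1).1, hP'.1]
  · rw [(hF 1).2.1, hP'.2.1]

end LHS
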