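import Pool.Agent.LHS.Stmts

/-!
# RVF: the reverse of a family
-/

set_option autoImplicit false

namespace LHS

open Set LH LC Filter
open scoped ContDiff Topology

theorem t_RVF : Stmt_RVF := by
  intro hX Λ Λ' Λ₁ Λ₁' hF h h'
  obtain ⟨K, hK, h0, h1⟩ := hF
  choose r hr using hX
  refine ⟨fun t => r (K t), ?_, ?_, ?_⟩
  · have hm : MapsTo (fun q : ℝ × ℝ => (q.1, -q.2)) (Icc 0 1 ×ˢ univ) (Icc 0 1 ×ˢ univ) :=
      fun q hq => ⟨hq.1, mem_univ _⟩
    have hc : ContDiffOn ℝ ∞ (fun q : ℝ × ℝ => (q.1, -q.2)) (Icc 0 1 ×ˢ univ) :=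
      (contDiff_fst.prodMk contDiff_snd.neg).contDiffOn
    have hcomp := ContDiffOn.comp hK hc hm
    refine hcomp.congr fun q _ => ?_
    exact hr (K q.1) q.2
  · funext u
    show (r (K 0)).γ u = Λ₁.γ u
    rw [hr (K 0) u, h u, h0]
  · funext u
    show (r (K 1)).γ u = Λ₁'.γ u
    rw [hr (K 1) u, h' u, h1]

end LHS
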