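import Pool.Agent.LHS.Stmts

/-!
# RVS: the reverse of a stabilisation is a stabilisation
-/

namespace LHS

open Set LH LC Filter
open scoped ContDiff Topology

namespace RVS

theorem x_eq {Λ Λ' : LegKnot} (h : Rv Λ Λ') : Λ'.x = fun u => Λ.x (-u) := by
  funext u
  unfold LegKnot.x
  rw [h u]

theorem y_eq {Λ Λ' : LegKnot} (h : Rv Λ Λ') : Λ'.y = fun u => Λ.y (-u) := by
  funext u
  unfold LegKnot.y
  rw [h u]

theorem dx {Λ Λ' : LegKnot} (h : Rv Λ Λ') (u : ℝ) : deriv Λ'.x u = -deriv Λ.x (-u) := by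
  rw [x_eq h, deriv_comp_neg]

theorem dy {Λ Λ' : LegKnot} (h : Rv Λ Λ') (u : ℝ) : deriv Λ'.y u = -deriv Λ.y (-u) := by
  rw [y_eq h, deriv_comp_neg]

theorem ddx {Λ Λ' : LegKnot} (h : Rv Λ Λ') (u : ℝ) :
    deriv (deriv Λ'.x) u = deriv (deriv Λ.x) (-u) := by
  have e : deriv Λ'.x = fun v => -(deriv Λ.x (-v)) := funext (dx h)
  rw [e, deriv.fun_neg, deriv_comp_neg (deriv Λ.x), neg_neg]

end RVS

theorem t_RVS : Stmt_RVS := by
  intro Λ' Λ'' Λ₁ Λ₂ hst h1 h2
  obtain ⟨a, c, d, b, D, hac, hcd, hdb, hba, hag, hDo, hDc, hout, hin, hin', hinj, hcusp, hc, hd,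
    hy⟩ := hst
  have hper1 : ∀ u, Λ₁.γ u = Λ'.γ (1 - u) := by
    intro u
    rw [h1 u, ← Λ'.periodic (-u)]
    congr 1
    ring
  have hper2 : ∀ u, Λ₂.γ u = Λ''.γ (1 - u) := by
    intro u
    rw [h2 u, ← Λ''.periodic (-u)]
    congr 1
    ring
  have hm : ∀ u ∈ Icc (-a) (-b + 1), 1 - u ∈ Icc b (a + 1) := by
    intro u hu
    exact ⟨by linarith [hu.2], by linarith [hu.1]⟩
  have hm1 : ∀ u ∈ Ioo (-b) (-a), -u ∈ Ioo a b := by
    intro u hu
    exact ⟨by linarith [hu.2], by linarith [hu.1]⟩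
  have hm2 : ∀ u ∈ Icc (-b) (-a), -u ∈ Icc a b := by
    intro u hu
    exact ⟨by linarith [hu.2], by linarith [hu.1]⟩
  refine ⟨-b, -d, -c, -a, D, by linarith, by linarith, by linarith, by linarith, ?_, hDo, hDc,
    ?_, ?_, ?_, ?_, ?_, ?_, ?_, ?_⟩
  · intro u hu
    rw [hper1, hper2, hag _ (hm u hu)]
  · intro u hu
    rw [hper2]
    exact hout _ (hm u hu)
  · intro u hu
    rw [h2 u, RVS.dx h2]
    exact ⟨(hin _ (hm1 u hu)).1, neg_ne_zero.2 (hin _ (hm1 u hu)).2⟩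
  · intro u hu
    rw [h1 u]
    exact hin' _ (hm1 u hu)
  · intro u hu v hv huv
    simp only at huv
    rw [h1 u, h1 v] at huv
    exact neg_injective (hinj (hm2 u hu) (hm2 v hv) huv)
  · intro u hu
    rw [RVS.dx h1, neg_eq_zero, hcusp _ (hm2 u hu)]
    constructor
    · rintro (h | h)
      · right
        linarith
      · left
        linarith
    · rintro (h | h)
      · right
        linarith
      · left
        linarith
  · rw [RVS.ddx h1, neg_neg]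
    exact hd
  · rw [RVS.ddx h1, neg_neg]
    exact hc
  · rw [RVS.dy h1, RVS.dy h1, neg_neg, neg_neg, neg_mul_neg, mul_comm]
    exact hy

end LHS
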