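import Pool.Agent.LHS.Stmts

/-!
# The reversed knot
-/

namespace LHS

open Set LH LC Filter
open scoped ContDiff Topology

theorem t_RVX : Stmt_RVX := by
  intro Λ
  refine ⟨⟨fun u => Λ.γ (-u), ?_, ?_, ?_, ?_, ?_⟩, fun u => rfl⟩
  · exact Λ.smooth.comp contDiff_neg
  · intro u
    have h := Λ.periodic (-(u + 1))
    have e : -(u + 1) + 1 = -u := by ring
    rw [e] at h
    exact h.symm
  · intro u
    rw [deriv_comp_neg]
    exact neg_ne_zero.mpr (Λ.immersion (-u))
  · intro u v h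
    obtain ⟨k, hk⟩ := Λ.injective (-u) (-v) h
    refine ⟨-k, ?_⟩
    push_cast
    linarith
  · intro u
    rw [deriv_comp_neg]
    have h := Λ.legendrian (-u)
    unfold alpha at h ⊢
    change -(deriv Λ.γ (-u)).2.2 - (Λ.γ (-u)).2.1 * -(deriv Λ.γ (-u)).1 = 0
    linarith

end LHS
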