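import Pool.Agent.LHS.Stmts

namespace LHS

open Set LH LC Filter
open scoped ContDiff Topology

namespace SEP

theorem py_shift {N : ℕ} (P : Pg N) (i : ℤ) : P.y (i + N) = P.y i := P.py i

/-- near components in the order `q < p'` -/
theorem near (hYMO : P_YMO) (hNEA : P_NEA) {Λ : LegKnot} {M η c σ : ℝ} {N : ℕ}
    (hb : Bd Λ M η c) (hN : NL M η c σ N) {P : Pg N} (hP : IsPN Λ N P) {e : ℝ} {p q p' q' : ℤ}
    (h : CompE P e p q) (h' : CompE P e p' q') (hq : q < p') {i j : ℤ} (hi : i ∈ Icc p q)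
    (hj : j ∈ Icc p' q') (hij : (j : ℝ) - i ≤ η / (4 * M) * N) :
    (∀ i ∈ Icc p q, ∀ j ∈ Icc p' q', P.y i < P.y j) ∨
      ∀ i ∈ Icc p q, ∀ j ∈ Icc p' q', P.y j < P.y i := by
  have hz := hNEA Λ M η c σ N hb hN P hP e p q p' q' h h' hq i hi j hj hij
  rcases hYMO Λ M η c σ N hb hN P hP p q' hz with hm | hm
  · left
    intro i hi j hj
    exact hm ⟨hi.1, by have := h'.le; have := hi.2; omega⟩
      ⟨by have := h.le; have := hj.1; omega, hj.2⟩ (by have := hi.2; have := hj.1; omega)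
  · right
    intro i hi j hj
    exact hm ⟨hi.1, by have := h'.le; have := hi.2; omega⟩
      ⟨by have := h.le; have := hj.1; omega, hj.2⟩ (by have := hi.2; have := hj.1; omega)

end SEP

open SEP in
theorem t_SEP : Stmt_SEP := by
  intro hSHF hYMO hNEA hFAR Λ M η c σ N hb hN hS P hP e p q p' q' h h' hq hq' hl
  by_cases hnear : ∃ i ∈ Icc p q, ∃ j ∈ Icc p' q', (j : ℝ) - i < η / (4 * M) * N
  · obtain ⟨i, hi, j, hj, hij⟩ := hnear
    exact near hYMO hNEA hb hN hP h h' hq hi hj hij.le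
  by_cases hnear' : ∃ i ∈ Icc p q, ∃ j ∈ Icc p' q', (1 - η / (4 * M)) * N < (j : ℝ) - i
  · obtain ⟨i, hi, j, hj, hij⟩ := hnear'
    have hs := hSHF N P e p q h
    have := near hYMO hNEA hb hN hP h' hs hq' (i := j) (j := i + N) hj
      ⟨by have := hi.1; omega, by have := hi.2; omega⟩ (by push_cast; nlinarith)
    rcases this with hm | hm
    · right
      intro i hi j hj
      have := hm j hj (i + N) ⟨by have := hi.1; omega, by have := hi.2; omega⟩
      rwa [py_shift] at this
    · left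
      intro i hi j hj
      have := hm j hj (i + N) ⟨by have := hi.1; omega, by have := hi.2; omega⟩
      rwa [py_shift] at this
  · push Not at hnear hnear'
    exact hFAR Λ M η c (η / (4 * M)) σ N hb hN hS P hP e p q p' q' h h' hl
      (fun i hi j hj => ⟨hnear i hi j hj, hnear' i hi j hj⟩)

end LHS
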