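import Pool.Agent.LHS.Stmts

/-!
# The distance of far pairs of points of the knots of a family
-/

namespace LHS

open Set LH LC Filter
open scoped ContDiff Topology

namespace SGM

theorem shift (Λ : LegKnot) (u : ℝ) (k : ℤ) : Λ.γ (u + k) = Λ.γ u := by
  have hp : Function.Periodic Λ.γ 1 := Λ.periodic
  have h := hp.int_mul k u
  rwa [mul_one] at h

/-- The distance of two points. -/
noncomputable def g (K : ℝ → LegKnot) (q : ℝ × ℝ × ℝ) : ℝ :=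
  ‖(K q.1).γ q.2.1 - (K q.1).γ (q.2.1 + q.2.2)‖

theorem g_cont (K : ℝ → LegKnot)
    (hK : ContinuousOn (fun q : ℝ × ℝ => (K q.1).γ q.2) (Icc 0 1 ×ˢ univ)) (ρ : ℝ) :
    ContinuousOn (g K) (Icc (0 : ℝ) 1 ×ˢ (Icc (0 : ℝ) 1 ×ˢ Icc ρ (1 - ρ))) := by
  unfold g
  refine ContinuousOn.norm (ContinuousOn.sub ?_ ?_)
  · have h1 : ContinuousOn (fun q : ℝ × ℝ × ℝ => ((q.1, q.2.1) : ℝ × ℝ))
        (Icc (0 : ℝ) 1 ×ˢ (Icc (0 : ℝ) 1 ×ˢ Icc ρ (1 - ρ))) := by fun_prop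
    exact hK.comp h1 fun q hq => ⟨hq.1, mem_univ _⟩
  · have h1 : ContinuousOn (fun q : ℝ × ℝ × ℝ => ((q.1, q.2.1 + q.2.2) : ℝ × ℝ))
        (Icc (0 : ℝ) 1 ×ˢ (Icc (0 : ℝ) 1 ×ˢ Icc ρ (1 - ρ))) := by fun_prop
    exact hK.comp h1 fun q hq => ⟨hq.1, mem_univ _⟩

theorem g_pos (K : ℝ → LegKnot) {ρ t u d : ℝ} (hρ : 0 < ρ) (hd : ρ ≤ d) (hd' : d ≤ 1 - ρ) :
    0 < g K (t, u, d) := by
  unfold g
  rw [norm_pos_iff, sub_ne_zero]
  intro h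
  obtain ⟨k, hk⟩ := (K t).injective _ _ h
  have hk' : (k : ℝ) = d := by
    have h' : u + d = u + k := hk
    linarith
  have h1 : (0 : ℝ) < k := by rw [hk']; linarith
  have h2 : (k : ℝ) < 1 := by rw [hk']; linarith
  have h3 : 0 < k := by exact_mod_cast h1
  have h4 : k < 1 := by exact_mod_cast h2
  omega

end SGM

theorem t_SGM : Stmt_SGM := by
  intro _ hC K hK ρ hρ
  have hcont := (hC K hK).1
  by_cases hr : 1 - ρ < ρ
  · refine ⟨1, one_pos, fun t _ u v h1 h2 => ?_⟩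
    linarith
  rw [not_lt] at hr
  have hcomp : IsCompact (Icc (0 : ℝ) 1 ×ˢ (Icc (0 : ℝ) 1 ×ˢ Icc ρ (1 - ρ))) :=
    isCompact_Icc.prod (isCompact_Icc.prod isCompact_Icc)
  have hne : (Icc (0 : ℝ) 1 ×ˢ (Icc (0 : ℝ) 1 ×ˢ Icc ρ (1 - ρ))).Nonempty :=
    ⟨(0, 0, ρ), ⟨left_mem_Icc.2 zero_le_one, left_mem_Icc.2 zero_le_one, left_mem_Icc.2 hr⟩⟩
  obtain ⟨⟨t0, u0, d0⟩, hq0, hmin⟩ := hcomp.exists_isMinOn hne (SGM.g_cont K hcont ρ)
  refine ⟨SGM.g K (t0, u0, d0), SGM.g_pos K hρ hq0.2.2.1 hq0.2.2.2, fun t ht u v h1 h2 => ?_⟩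
  have hmem : ((t, Int.fract u, v - u) : ℝ × ℝ × ℝ) ∈
      Icc (0 : ℝ) 1 ×ˢ (Icc (0 : ℝ) 1 ×ˢ Icc ρ (1 - ρ)) :=
    ⟨ht, ⟨Int.fract_nonneg u, (Int.fract_lt_one u).le⟩, ⟨h1, h2⟩⟩
  have hle : SGM.g K (t0, u0, d0) ≤ SGM.g K (t, Int.fract u, v - u) := hmin hmem
  have e1 : (K t).γ (Int.fract u) = (K t).γ u := by
    rw [← SGM.shift (K t) (Int.fract u) ⌊u⌋, add_comm, Int.floor_add_fract]
  have e2 : (K t).γ (Int.fract u + (v - u)) = (K t).γ v := by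
    rw [← SGM.shift (K t) (Int.fract u + (v - u)) ⌊u⌋]
    have : Int.fract u + (v - u) + (⌊u⌋ : ℝ) = v := by
      have := Int.floor_add_fract u
      linarith
    rw [this]
  have e3 : SGM.g K (t, Int.fract u, v - u) =
      max |(K t).x u - (K t).x v| (max |(K t).y u - (K t).y v| |zc (K t) u - zc (K t) v|) := by
    unfold SGM.g
    change ‖(K t).γ (Int.fract u) - (K t).γ (Int.fract u + (v - u))‖ = _
    rw [e1, e2]
    rfl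
  rw [e3, le_max_iff, le_max_iff] at hle
  exact hle

end LHS
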