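import Pool.Agent.LHS.Stmts

/-!
# SGN: discrete intermediate value argument
-/

namespace LHS

open Set LH LC Filter
open scoped ContDiff Topology

namespace SGN

theorem pos_of_pos (g : ℤ → ℝ) (p q : ℤ) (s : ℝ) (hs : 0 < s)
    (h1 : ∀ i ∈ Icc p q, s ≤ |g i|) (h2 : ∀ i, |g (i + 1) - g i| < s) (hp : 0 < g p) :
    ∀ i ∈ Icc p q, 0 < g i := by
  have key : ∀ i, p ≤ i → i ≤ q → 0 < g i := by
    intro i hi
    induction i, hi using Int.leInduction with
    | base => intro _; exact hp
    | succ n hn ih =>
      intro hq
      have h3 := ih (by omega)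
      have h4 := h1 n ⟨hn, by omega⟩
      have h5 := h1 (n + 1) ⟨by omega, hq⟩
      have h6 := abs_lt.mp (h2 n)
      by_contra hneg
      push Not at hneg
      rw [abs_of_pos h3] at h4
      rw [abs_of_nonpos hneg] at h5
      linarith [h6.1]
  intro i hi
  exact key i hi.1 hi.2

theorem half (f : ℤ → ℝ) (p q p' q' : ℤ) (s : ℝ) (hs : 0 < s) (hpq : p ≤ q) (hpq' : p' ≤ q')
    (h1 : ∀ i ∈ Icc p q, ∀ j ∈ Icc p' q', s ≤ |f i - f j|)
    (h2 : ∀ i, |f (i + 1) - f i| < s) (hp : f p' < f p) :
    ∀ i ∈ Icc p q, ∀ j ∈ Icc p' q', f j < f i := by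
  intro i hi j hj
  have e1 := pos_of_pos (fun i => f i - f p') p q s hs
    (fun i hi => h1 i hi p' ⟨le_refl _, hpq'⟩)
    (fun i => by
      have := h2 i
      have e : (f (i + 1) - f p') - (f i - f p') = f (i + 1) - f i := by ring
      change |(f (i + 1) - f p') - (f i - f p')| < s
      rw [e]
      exact this) (by change 0 < f p - f p'; linarith) i hi
  have e2 := pos_of_pos (fun j => f i - f j) p' q' s hs (fun j hj => h1 i hi j hj)
    (fun j => by
      have := h2 j
      have e : (f i - f (j + 1)) - (f i - f j) = -(f (j + 1) - f j) := by ring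
      change |(f i - f (j + 1)) - (f i - f j)| < s
      rw [e, abs_neg]
      exact this) e1 j hj
  change 0 < f i - f j at e2
  linarith

end SGN

/-- SGN. -/
theorem t_SGN : Stmt_SGN := by
  intro f p q p' q' s hs hpq hpq' h1 h2
  have h3 := h1 p ⟨le_refl _, hpq⟩ p' ⟨le_refl _, hpq'⟩
  rcases lt_trichotomy (f p) (f p') with h | h | h
  · left
    intro i hi j hj
    have := SGN.half (fun i => - f i) p q p' q' s hs hpq hpq'
      (fun i hi j hj => by
        have e := h1 i hi j hj
        have e' : - f i - - f j = -(f i - f j) := by ring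
        change s ≤ |(- f i - - f j)|
        rw [e', abs_neg]
        exact e)
      (fun i => by
        have e := h2 i
        have e' : - f (i + 1) - - f i = -(f (i + 1) - f i) := by ring
        change |(- f (i + 1) - - f i)| < s
        rw [e', abs_neg]
        exact e) (by change - f p' < - f p; linarith) i hi j hj
    change - f j < - f i at this
    linarith
  · rw [h, sub_self, abs_zero] at h3
    linarith
  · right
    exact SGN.half f p q p' q' s hs hpq hpq' h1 h2 h

end LHS
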