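import Pool.Agent.LHS.Stmts

/-! Module LHS_SHF: components can be shifted by a period. -/

open Set LH LC Filter
open scoped ContDiff Topology

namespace LHS

theorem t_SHF : Stmt_SHF := by
  intro N P e p q h
  have hx1 : P.x (p + N) = P.x p := P.px p
  have hx2 : P.x (q + N + 1) = P.x (q + 1) := by
    have h1 : q + N + 1 = (q + 1) + N := by ring
    rw [h1, P.px]
  refine ⟨?_, ?_, ?_, ?_, ?_⟩
  · have := h.le
    omega
  · intro i h1 h2
    have h3 := P.px (i - N)
    rw [sub_add_cancel] at h3
    rw [h3]
    exact h.ins (i - N) (by omega) (by omega)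
  · rw [hx1]
    exact h.fst
  · rw [hx2]
    exact h.lst
  · intro h1
    rw [hx1, hx2]
    exact h.one (by omega)

end LHS
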