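import Pool.Agent.LHS.Stmts

/-!
# The change of the parameter is smooth
-/

namespace LHS

open Set LH LC Filter
open scoped ContDiff Topology

namespace SMT

theorem local_smooth (f g φ : ℝ → ℝ) (u0 : ℝ) (hf : ContDiff ℝ ∞ f) (hg : ContDiff ℝ ∞ g)
    (hφ : Continuous φ) (h : ∀ u, g u = f (φ u)) (hd : deriv f (φ u0) ≠ 0) :
    ContDiffAt ℝ ∞ φ u0 := by
  have hn : (∞ : WithTop ℕ∞) ≠ 0 := by simp
  have hfa : ContDiffAt ℝ ∞ f (φ u0) := hf.contDiffAt
  have hder : HasDerivAt f (deriv f (φ u0)) (φ u0) :=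
    ((hf.differentiable hn) (φ u0)).hasDerivAt
  have hf' := hder.hasFDerivAt_equiv hd
  have h1 : ContDiffAt ℝ ∞ (hfa.localInverse hf' hn) (f (φ u0)) := hfa.to_localInverse hf' hn
  rw [← h u0] at h1
  have h2 : ContDiffAt ℝ ∞ (fun u => hfa.localInverse hf' hn (g u)) u0 :=
    h1.comp u0 hg.contDiffAt
  have h3 : ∀ᶠ x in 𝓝 (φ u0), hfa.localInverse hf' hn (f x) = x :=
    HasStrictFDerivAt.eventually_left_inverse (hfa.hasStrictFDerivAt' hf' hn)
  have h4 : ∀ᶠ u in 𝓝 u0, hfa.localInverse hf' hn (f (φ u)) = φ u := hφ.continuousAt.eventually h3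
  refine h2.congr_of_eventuallyEq ?_
  filter_upwards [h4] with u hu
  rw [h u]
  exact hu.symm

end SMT

theorem t_SMT : Stmt_SMT := by
  intro hB Λ Λ' φ hφ h
  obtain ⟨hx, hy, -⟩ := hB Λ
  obtain ⟨hx', hy', -, -, -, -, -, -, -, him', -⟩ := hB Λ'
  have hs : ContDiff ℝ ∞ φ := by
    rw [contDiff_iff_contDiffAt]
    intro u
    rcases him' (φ u) with hd | hd
    · exact SMT.local_smooth Λ'.x Λ.x φ u hx' hx hφ (fun v => congrArg Prod.fst (h v)) hd
    · exact SMT.local_smooth Λ'.y Λ.y φ u hy' hy hφ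
        (fun v => congrArg (fun p : R3 => p.2.1) (h v)) hd
  refine ⟨hs, fun u hu => ?_⟩
  have h1 : HasDerivAt φ (deriv φ u) u := ((hs.differentiable (by simp)) u).hasDerivAt
  have h2 : HasDerivAt Λ'.γ (deriv Λ'.γ (φ u)) (φ u) :=
    ((Λ'.smooth.differentiable (by simp)) (φ u)).hasDerivAt
  have h3 : HasDerivAt (fun v => Λ'.γ (φ v)) (deriv φ u • deriv Λ'.γ (φ u)) u :=
    HasDerivAt.scomp u h2 h1
  have h4 : (fun v => Λ'.γ (φ v)) = Λ.γ := funext fun v => (h v).symm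
  rw [h4, hu, zero_smul] at h3
  exact Λ.immersion u h3.deriv

end LHS
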