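import Pool.Agent.LHS.Stmts

/-!
# STM: strict monotonicity on an interval of integers from the successor steps
-/

namespace LHS

open Set LH LC Filter
open scoped ContDiff Topology

namespace STM

theorem aux (f : ℤ → ℝ) (p q : ℤ) (h : ∀ i, p ≤ i → i < q → f i < f (i + 1)) (i : ℤ)
    (hi : p ≤ i) (n : ℕ) : i + (n + 1) ≤ q → f i < f (i + (n + 1)) := by
  induction n with
  | zero =>
    intro hn
    have := h i hi (by simp at hn; omega)
    simpa using this
  | succ n ih =>
    intro hn
    push_cast at hn ⊢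
    have h1 := ih (by omega)
    have h2 := h (i + (n + 1)) (by omega) (by omega)
    have e : i + ((n : ℤ) + 1 + 1) = i + (n + 1) + 1 := by ring
    rw [e]
    exact h1.trans h2

theorem mono (f : ℤ → ℝ) (p q : ℤ) (h : ∀ i, p ≤ i → i < q → f i < f (i + 1)) :
    StrictMonoOn f (Icc p q) := by
  intro i hi j hj hij
  obtain ⟨n, hn⟩ : ∃ n : ℕ, j = i + (n + 1) := ⟨(j - i - 1).toNat, by omega⟩
  rw [hn]
  exact aux f p q h i hi.1 n (by rw [← hn]; exact hj.2)

end STM

/-- STM -/
theorem t_STM : Stmt_STM := by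
  intro f p q
  refine ⟨fun h => STM.mono f p q h, fun h => ?_⟩
  have := STM.mono (fun i => - f i) p q (fun i h1 h2 => neg_lt_neg (h i h1 h2))
  intro i hi j hj hij
  exact neg_lt_neg_iff.1 (this hi hj hij)

end LHS
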