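import Pool.Agent.LHS.Stmts

/-!
# YMO: the slopes are strictly monotone where `|x'|` is small
-/

namespace LHS

open Set LH LC Filter
open scoped ContDiff Topology

namespace YMO

/-- A continuous function of absolute value at least `η` on an interval has a constant sign. -/
theorem sign {f : ℝ → ℝ} (hf : Continuous f) {a b η : ℝ} (hη : 0 < η)
    (h : ∀ u ∈ Icc a b, η ≤ |f u|) :
    (∀ u ∈ Icc a b, η ≤ f u) ∨ ∀ u ∈ Icc a b, f u ≤ -η := by
  by_contra hc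
  rw [not_or] at hc
  obtain ⟨h1, h2⟩ := hc
  push Not at h1 h2
  obtain ⟨u, hu, hu2⟩ := h1
  obtain ⟨v, hv, hv2⟩ := h2
  have h3 : f u ≤ -η := by
    rcases le_abs.mp (h u hu) with h4 | h4 <;> linarith
  have h4 : η ≤ f v := by
    rcases le_abs.mp (h v hv) with h5 | h5 <;> linarith
  have h5 := isPreconnected_Icc.intermediate_value hu hv hf.continuousOn
  obtain ⟨w, hw, hw2⟩ := h5 ⟨(by linarith : f u ≤ 0), (by linarith : (0 : ℝ) ≤ f v)⟩
  have h6 := h w hw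
  rw [hw2, abs_zero] at h6
  linarith

theorem mean {f f' : ℝ → ℝ} (hf : ∀ u, HasDerivAt f (f' u) u) {a b : ℝ} (hab : a < b) :
    ∃ ξ ∈ Ioo a b, f b - f a = f' ξ * (b - a) := by
  obtain ⟨ξ, hξ, h⟩ := exists_hasDerivAt_eq_slope f f' hab
    (fun u _ => (hf u).continuousAt.continuousWithinAt) (fun u _ => hf u)
  refine ⟨ξ, hξ, ?_⟩
  rw [h, div_mul_cancel₀]
  linarith

/-- The variation of the differences of the vertices. -/
theorem diffs {Λ : LegKnot} {M η c : ℝ} (hB : Bd Λ M η c) (hx : ∀ u, HasDerivAt Λ.x (deriv Λ.x u) u)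
    (hM : 0 ≤ M) {N : ℕ} (hN : 1 ≤ N) (i : ℤ) :
    |(x0 Λ N (i + 1 + 1) - x0 Λ N (i + 1)) - (x0 Λ N (i + 1) - x0 Λ N i)| ≤
      2 * M / (N : ℝ) ^ 2 := by
  have hn : (0 : ℝ) < N := by exact_mod_cast hN
  have e1 : (i : ℝ) / N < ((i : ℝ) + 1) / N := by
    apply div_lt_div_of_pos_right _ hn
    linarith
  have e2 : ((i : ℝ) + 1) / N < ((i : ℝ) + 1 + 1) / N := by
    apply div_lt_div_of_pos_right _ hn
    linarith
  obtain ⟨ξ, hξ, h1⟩ := mean hx e1
  obtain ⟨ζ, hζ, h2⟩ := mean hx e2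
  have l1 : ((i : ℝ) + 1) / N - (i : ℝ) / N = 1 / N := by ring
  have l2 : ((i : ℝ) + 1 + 1) / N - ((i : ℝ) + 1) / N = 1 / N := by ring
  rw [l1] at h1
  rw [l2] at h2
  have h3 : (x0 Λ N (i + 1 + 1) - x0 Λ N (i + 1)) - (x0 Λ N (i + 1) - x0 Λ N i) =
      (deriv Λ.x ζ - deriv Λ.x ξ) * (1 / N) := by
    unfold x0
    push_cast
    rw [h1, h2]
    ring
  rw [h3, abs_mul, abs_of_pos (by positivity : (0 : ℝ) < 1 / N)]
  have h4 : |ζ - ξ| ≤ 2 / N := by
    rw [abs_le]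
    have h5 : ((i : ℝ) + 1 + 1) / N - (i : ℝ) / N = 2 / N := by ring
    have h6 : (0 : ℝ) < 2 / N := by positivity
    constructor
    · linarith [hξ.2, hζ.1]
    · linarith [hξ.1, hζ.2]
  calc |deriv Λ.x ζ - deriv Λ.x ξ| * (1 / N) ≤ (M * |ζ - ξ|) * (1 / N) :=
        mul_le_mul_of_nonneg_right (hB.xd ζ ξ) (by positivity)
    _ ≤ (M * (2 / N)) * (1 / N) := by
        apply mul_le_mul_of_nonneg_right _ (by positivity)
        exact mul_le_mul_of_nonneg_left h4 hM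
    _ = 2 * M / (N : ℝ) ^ 2 := by
        field_simp

end YMO

theorem t_YMO : Stmt_YMO := by
  intro hBAS hMUB hSTM Λ M η c σ N hB hN P hP p q hx
  obtain ⟨-, hyc, -, -, -, -, hxd, hyd, -, -, -⟩ := hBAS Λ
  obtain ⟨-, hmu⟩ := hMUB Λ M η c hN.M1 hN.c0 hB N hN.n1 hN.n2
  have hn : (0 : ℝ) < N := by exact_mod_cast hN.n1
  have hM : (0 : ℝ) < M := by linarith [hN.M1]
  have hη := hN.η0
  have hc := hN.c0
  have hyc' : Continuous (deriv Λ.y) := hyc.continuous_deriv (by simp)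
  have hsign := YMO.sign hyc' hη (a := (p : ℝ) / N) (b := ((q : ℝ) + 1) / N) (fun u hu => by
    rcases hB.im u with h | h
    · exact absurd (hx u hu) (not_lt.mpr h)
    · exact h)
  -- the correction
  have hcor : ∀ i : ℤ, |mu Λ N * ((x0 Λ N (i + 1 + 1) - x0 Λ N (i + 1)) -
      (x0 Λ N (i + 1) - x0 Λ N i))| < η * (1 / N) := by
    intro i
    rw [abs_mul]
    calc |mu Λ N| * |(x0 Λ N (i + 1 + 1) - x0 Λ N (i + 1)) - (x0 Λ N (i + 1) - x0 Λ N i)|
        ≤ (4 * M ^ 2 / c ^ 2) * (2 * M / (N : ℝ) ^ 2) :=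
          mul_le_mul hmu (YMO.diffs hB hxd hM.le hN.n1 i) (abs_nonneg _) (by positivity)
      _ = (2 * (4 * M ^ 2 / c ^ 2) * M) * (1 / (N : ℝ) ^ 2) := by ring
      _ < (η * N) * (1 / (N : ℝ) ^ 2) := mul_lt_mul_of_pos_right hN.n3 (by positivity)
      _ = η * (1 / N) := by
          field_simp
  -- the steps
  have hstep : ∀ i : ℤ, p ≤ i → i < q → ∃ ξ ∈ Icc ((p : ℝ) / N) (((q : ℝ) + 1) / N),
      P.y (i + 1) - P.y i = deriv Λ.y ξ * (1 / N) - mu Λ N *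
        ((x0 Λ N (i + 1 + 1) - x0 Λ N (i + 1)) - (x0 Λ N (i + 1) - x0 Λ N i)) := by
    intro i hi hi2
    have e1 : ((i : ℝ) + 1 / 2) / N < ((i : ℝ) + 1 + 1 / 2) / N := by
      apply div_lt_div_of_pos_right _ hn
      linarith
    obtain ⟨ξ, hξ, h1⟩ := YMO.mean hyd e1
    have l1 : ((i : ℝ) + 1 + 1 / 2) / N - ((i : ℝ) + 1 / 2) / N = 1 / N := by ring
    rw [l1] at h1
    refine ⟨ξ, ⟨?_, ?_⟩, ?_⟩
    · have h2 : (p : ℝ) / N ≤ ((i : ℝ) + 1 / 2) / N := by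
        apply div_le_div_of_nonneg_right _ hn.le
        have h3 : (p : ℝ) ≤ i := by exact_mod_cast hi
        linarith
      linarith [hξ.1]
    · have h2 : ((i : ℝ) + 1 + 1 / 2) / N ≤ ((q : ℝ) + 1) / N := by
        apply div_le_div_of_nonneg_right _ hn.le
        have h3 : (i : ℝ) + 1 ≤ q := by exact_mod_cast hi2
        linarith
      linarith [hξ.2]
    · rw [hP.2.1]
      unfold y1
      have h2 : y0 Λ N (i + 1) - y0 Λ N i = deriv Λ.y ξ * (1 / N) := by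
        unfold y0
        push_cast
        exact h1
      linear_combination h2
  obtain ⟨hS1, hS2⟩ := hSTM P.y p q
  rcases hsign with hs | hs
  · left
    refine hS1 fun i hi hi2 => ?_
    obtain ⟨ξ, hξ, h1⟩ := hstep i hi hi2
    have h2 := hs ξ hξ
    have h3 : η * (1 / N) ≤ deriv Λ.y ξ * (1 / N) :=
      mul_le_mul_of_nonneg_right h2 (by positivity)
    have h4 := (abs_lt.mp (hcor i)).2
    linarith
  · right
    refine hS2 fun i hi hi2 => ?_
    obtain ⟨ξ, hξ, h1⟩ := hstep i hi hi2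
    have h2 := hs ξ hξ
    have h3 : deriv Λ.y ξ * (1 / N) ≤ -η * (1 / N) :=
      mul_le_mul_of_nonneg_right h2 (by positivity)
    have h4 := (abs_lt.mp (hcor i)).1
    linarith

end LHS
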