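import Pool.Agent.LHS.Stmts

/-!
# A component over a point is monotone or has small derivative
-/

namespace LHS

open Set LH LC Filter
open scoped ContDiff Topology

namespace ZON

lemma crit_max {f : ℝ → ℝ} (hf : Continuous f) {a b c : ℝ} (hab : a < b) (hbc : b < c)
    (h1 : f a < f b) (h2 : f c < f b) : ∃ w ∈ Icc a c, deriv f w = 0 := by
  obtain ⟨w, hw, hm⟩ :=
    isCompact_Icc.exists_isMaxOn (nonempty_Icc.2 (hab.trans hbc).le) hf.continuousOn
  have hb : f b ≤ f w := hm ⟨hab.le, hbc.le⟩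
  have ha : a < w := by
    rcases hw.1.lt_or_eq with h | h
    · exact h
    · subst h
      exact absurd hb (not_le.2 h1)
  have hc : w < c := by
    rcases hw.2.lt_or_eq with h | h
    · exact h
    · subst h
      exact absurd hb (not_le.2 h2)
  exact ⟨w, hw, (hm.isLocalMax (Icc_mem_nhds ha hc)).deriv_eq_zero⟩

lemma crit_min {f : ℝ → ℝ} (hf : Continuous f) {a b c : ℝ} (hab : a < b) (hbc : b < c)
    (h1 : f b < f a) (h2 : f b < f c) : ∃ w ∈ Icc a c, deriv f w = 0 := by
  obtain ⟨w, hw, hm⟩ :=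
    isCompact_Icc.exists_isMinOn (nonempty_Icc.2 (hab.trans hbc).le) hf.continuousOn
  have hb : f w ≤ f b := hm ⟨hab.le, hbc.le⟩
  have ha : a < w := by
    rcases hw.1.lt_or_eq with h | h
    · exact h
    · subst h
      exact absurd hb (not_le.2 h1)
  have hc : w < c := by
    rcases hw.2.lt_or_eq with h | h
    · exact h
    · subst h
      exact absurd hb (not_le.2 h2)
  exact ⟨w, hw, (hm.isLocalMin (Icc_mem_nhds ha hc)).deriv_eq_zero⟩

lemma mono2 {f : ℤ → ℝ} {p : ℤ} (h : f p < f (p + 1)) : StrictMonoOn f (Icc p (p + 1)) := by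
  intro i hi j hj hij
  have hi1 : i = p := by
    have := hi.1; have := hj.2; omega
  have hj1 : j = p + 1 := by
    have := hi.1; have := hj.2; omega
  subst hi1
  subst hj1
  exact h

lemma mono3 {f : ℤ → ℝ} {p : ℤ} (h : f p < f (p + 1)) (h' : f (p + 1) < f (p + 2)) :
    StrictMonoOn f (Icc p (p + 2)) := by
  intro i hi j hj hij
  have h1 := hi.1
  have h2 := hj.2
  have hi1 : i = p ∨ i = p + 1 := by omega
  rcases hi1 with rfl | rfl
  · have hj1 : j = i + 1 ∨ j = i + 2 := by omega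
    rcases hj1 with rfl | rfl
    · exact h
    · exact h.trans h'
  · have hj1 : j = p + 2 := by omega
    subst hj1
    exact h'

lemma anti2 {f : ℤ → ℝ} {p : ℤ} (h : f (p + 1) < f p) : StrictAntiOn f (Icc p (p + 1)) := by
  have h0 : StrictMonoOn (fun i => - f i) (Icc p (p + 1)) := mono2 (by linarith)
  intro i hi j hj hij
  have := h0 hi hj hij
  simp only at this
  linarith

lemma anti3 {f : ℤ → ℝ} {p : ℤ} (h : f (p + 1) < f p) (h' : f (p + 2) < f (p + 1)) :
    StrictAntiOn f (Icc p (p + 2)) := by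
  have h0 : StrictMonoOn (fun i => - f i) (Icc p (p + 2)) :=
    mono3 (by linarith) (by linarith)
  intro i hi j hj hij
  have := h0 hi hj hij
  simp only at this
  linarith

lemma small {g : ℝ → ℝ} {M : ℝ} {N : ℕ} (hM : 0 ≤ M)
    (hl : ∀ u v, |g u - g v| ≤ M * |u - v|) {u w : ℝ} (hw : g w = 0)
    (hd : |u - w| ≤ 2 / N) : |g u| ≤ 2 * M / N := by
  have h1 := hl u w
  rw [hw, sub_zero] at h1
  calc |g u| ≤ M * |u - w| := h1
    _ ≤ M * (2 / N) := by gcongr
    _ = 2 * M / N := by ring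

/-- The parameter `u` is near some interval `[k/N, (k+1)/N]`. -/
lemma near {N : ℕ} (hN : 1 ≤ N) {p q : ℤ} (hpq : p + 2 ≤ q) {u : ℝ}
    (hu : u ∈ Icc ((p : ℝ) / N) (((q : ℝ) + 1) / N)) :
    ∃ k : ℤ, p + 1 ≤ k ∧ k + 1 ≤ q ∧
      ∀ w ∈ Icc ((k : ℝ) / N) (((k : ℝ) + 1) / N), |u - w| ≤ 2 / N := by
  have hN0 : (0 : ℝ) < N := by exact_mod_cast (by omega : 0 < N)
  obtain ⟨h1, h2⟩ := hu
  rw [div_le_iff₀ hN0] at h1
  rw [le_div_iff₀ hN0] at h2
  have key : ∀ k : ℤ, (k : ℝ) - 1 ≤ u * N → u * N ≤ k + 2 →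
      ∀ w ∈ Icc ((k : ℝ) / N) (((k : ℝ) + 1) / N), |u - w| ≤ 2 / N := by
    intro k hk1 hk2 w hw
    obtain ⟨h3, h4⟩ := hw
    rw [div_le_iff₀ hN0] at h3
    rw [le_div_iff₀ hN0] at h4
    rw [le_div_iff₀ hN0]
    have h5 : |u - w| * N = |u * N - w * N| := by
      rw [← sub_mul, abs_mul, abs_of_pos hN0]
    rw [h5, abs_le]
    constructor <;> linarith
  by_cases ha : u * N < p + 1
  · refine ⟨p + 1, le_refl _, by omega, key _ ?_ ?_⟩ <;> push_cast <;> linarith
  · by_cases hb : (q : ℝ) - 1 ≤ u * N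
    · refine ⟨q - 1, by omega, by omega, key _ ?_ ?_⟩ <;> push_cast <;> linarith
    · push Not at ha hb
      have hf1 := Int.floor_le (u * N)
      have hf2 := Int.lt_floor_add_one (u * N)
      refine ⟨⌊u * N⌋, Int.le_floor.2 (by push_cast; linarith), ?_, key _ ?_ ?_⟩
      · have : (⌊u * N⌋ : ℝ) < ((q - 1 : ℤ) : ℝ) := by push_cast; linarith
        have := Int.cast_lt.1 this
        omega
      · linarith
      · linarith

end ZON

open ZON in
theorem t_ZON : Stmt_ZON := by
  intro hBAS Λ M η c hB N hN P hP e p q hC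
  have hN0 : (0 : ℝ) < N := by exact_mod_cast (by omega : 0 < N)
  have hM : 0 ≤ M := by
    have := (abs_nonneg _).trans (hB.xd 0 1)
    norm_num at this
    exact this
  have hcont : Continuous Λ.x := (hBAS Λ).1.continuous
  have hx : ∀ i : ℤ, P.x i = Λ.x ((i : ℝ) / N) := fun i => by rw [hP.1]; rfl
  have hpq := hC.le
  rcases (by omega : q = p ∨ q = p + 1 ∨ p + 2 ≤ q) with h | h | h
  · subst h
    left
    rcases hC.one rfl with h1 | h1
    · exact Or.inl (mono2 (h1.1.trans h1.2))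
    · exact Or.inr (anti2 (h1.1.trans h1.2))
  · subst h
    have e1 : P.x (p + 1) = e := hC.ins (p + 1) (by omega) le_rfl
    have e0 := hC.fst
    have e2 := hC.lst
    have e12 : p + 1 + 1 = p + 2 := by ring
    rw [e12] at e2 ⊢
    have hlt1 : (p : ℝ) / N < ((p + 1 : ℤ) : ℝ) / N := by
      push_cast
      gcongr
      linarith
    have hlt2 : ((p + 1 : ℤ) : ℝ) / N < ((p + 2 : ℤ) : ℝ) / N := by
      push_cast
      gcongr
      linarith
    have hend : (((p + 1 : ℤ) : ℝ) + 1) / N = ((p + 2 : ℤ) : ℝ) / N := by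
      push_cast
      ring
    have fin : (∃ w ∈ Icc ((p : ℝ) / N) (((p + 2 : ℤ) : ℝ) / N), deriv Λ.x w = 0) →
        ∀ u ∈ Icc ((p : ℝ) / N) ((((p + 1 : ℤ) : ℝ) + 1) / N), |deriv Λ.x u| ≤ 2 * M / N := by
      rintro ⟨w, hw, hw0⟩ u hu
      rw [hend] at hu
      refine small hM hB.xd hw0 ?_
      have e3 : ((p + 2 : ℤ) : ℝ) / N = (p : ℝ) / N + 2 / N := by
        push_cast
        ring
      rw [e3] at hw hu
      rw [abs_le]
      constructor <;> linarith [hw.1, hw.2, hu.1, hu.2]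
    rcases lt_or_gt_of_ne e0 with g0 | g0 <;> rcases lt_or_gt_of_ne e2 with g2 | g2
    · right
      apply fin
      apply crit_max hcont hlt1 hlt2
      · rw [← hx, ← hx, e1]
        exact g0
      · rw [← hx, ← hx, e1]
        exact g2
    · left
      left
      exact mono3 (by rw [e1]; exact g0) (by rw [e1]; exact g2)
    · left
      right
      exact anti3 (by rw [e1]; exact g0) (by rw [e1]; exact g2)
    · right
      apply fin
      apply crit_min hcont hlt1 hlt2
      · rw [← hx, ← hx, e1]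
        exact g0
      · rw [← hx, ← hx, e1]
        exact g2
  · right
    intro u hu
    obtain ⟨k, hk1, hk2, hk⟩ := near hN h hu
    have hlt : (k : ℝ) / N < ((k : ℝ) + 1) / N := by
      gcongr
      linarith
    have h1 : Λ.x ((k : ℝ) / N) = e := by
      rw [← hx]
      exact hC.ins k (by omega) (by omega)
    have h2 : Λ.x (((k : ℝ) + 1) / N) = e := by
      have := hC.ins (k + 1) (by omega) (by omega)
      rw [hx] at this
      push_cast at this
      exact this
    obtain ⟨w, hw, hw0⟩ := exists_deriv_eq_zero hlt hcont.continuousOn (h1.trans h2.symm)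
    exact small hM hB.xd hw0 (hk w ⟨hw.1.le, hw.2.le⟩)

end LHS
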