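import Pool.Agent.LHS.BAS
import Pool.Agent.LHS.CTN
import Pool.Agent.LHS.BD1
import Pool.Agent.LHS.BD2
import Pool.Agent.LHS.BD3
import Pool.Agent.LHS.SGM
import Pool.Agent.LHS.MID
import Pool.Agent.LHS.MUB
import Pool.Agent.LHS.PEX
import Pool.Agent.LHS.ZAP
import Pool.Agent.LHS.HLN
import Pool.Agent.LHS.SHF
import Pool.Agent.LHS.CRS
import Pool.Agent.LHS.ZON
import Pool.Agent.LHS.STM
import Pool.Agent.LHS.YMO
import Pool.Agent.LHS.TYP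
import Pool.Agent.LHS.NEA
import Pool.Agent.LHS.SGN
import Pool.Agent.LHS.FAR
import Pool.Agent.LHS.SEP
import Pool.Agent.LHS.EMB
import Pool.Agent.LHS.PTH
import Pool.Agent.LHS.FPE
import Pool.Agent.LHS.LFT
import Pool.Agent.LHS.SMT
import Pool.Agent.LHS.DEG
import Pool.Agent.LHS.RVX
import Pool.Agent.LHS.RVS
import Pool.Agent.LHS.RVF
import Pool.Agent.LHS.PSF
import Pool.Agent.LHS.CAR
import Pool.Agent.LHS.FIN

/-!
# Part C, smooth side: the theorem `LH.T_SM`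
-/

namespace LHS

theorem p_MID : P_MID := t_MID t_BAS

theorem p_MUB : P_MUB := t_MUB t_BAS p_MID

theorem p_ZAP : P_ZAP := t_ZAP t_BAS p_MID p_MUB

theorem p_CRS : P_CRS := t_CRS t_BAS

theorem p_ZON : P_ZON := t_ZON t_BAS

theorem p_YMO : P_YMO := t_YMO t_BAS p_MUB t_STM

theorem p_TYP : P_TYP := t_TYP p_ZON p_YMO

theorem p_NEA : P_NEA := t_NEA t_BAS p_CRS p_ZON

theorem p_FAR : P_FAR := t_FAR t_BAS p_MUB p_ZAP t_HLN p_CRS t_SGN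

theorem p_SEP : P_SEP := t_SEP t_SHF p_YMO p_NEA p_FAR

theorem p_EMB : P_EMB := t_EMB p_MUB p_TYP p_SEP

theorem p_FPE : P_FPE :=
  t_FPE (t_BD1 t_BAS t_CTN) (t_BD2 t_BAS t_CTN) (t_BD3 t_BAS t_CTN) (t_SGM t_BAS t_CTN) p_MUB
    p_EMB (t_PTH t_CTN t_PEX)

theorem p_CAR : P_CAR := t_CAR t_LFT (t_SMT t_BAS) t_DEG

/-- `T_SM`. -/
theorem main : LH.T_SM := t_FIN t_RVX t_RVS (t_RVF t_RVX) t_PSF p_CAR t_PEX p_FPE

end LHS
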