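import Pool.Agent.LH.Base

/-!
# Part C, smooth side: from smooth Legendrian isotopies to paths of polygons

Statements for the theorem `LH.T_SM` (architect helper9).
-/

namespace LHS

open Set LH LC
open scoped ContDiff

/-! ### definitions -/

/-- The `z`-coordinate of the knot. -/
def zc (Λ : LegKnot) (u : ℝ) : ℝ := (Λ.γ u).2.2

/-- A smooth family of knots over `[0, 1]`. -/
def Fam (K : ℝ → LegKnot) : Prop :=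
  ContDiffOn ℝ ∞ (fun q : ℝ × ℝ => (K q.1).γ q.2) (Icc 0 1 ×ˢ univ)

/-- `Λ` and `Λ'` (as parametrised knots) are the ends of a smooth family. -/
def FP (Λ Λ' : LegKnot) : Prop := ∃ K, Fam K ∧ (K 0).γ = Λ.γ ∧ (K 1).γ = Λ'.γ

/-- `Λ` is `Λ'` in another parametrisation of the same direction. -/
def Pos (Λ Λ' : LegKnot) : Prop :=
  ∃ φ : ℝ → ℝ, ContDiff ℝ ∞ φ ∧ (∀ u, 0 < deriv φ u) ∧ (∀ u, φ (u + 1) = φ u + 1) ∧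
    ∀ u, Λ.γ u = Λ'.γ (φ u)

/-- `Λ'` is `Λ` with the opposite direction. -/
def Rv (Λ Λ' : LegKnot) : Prop := ∀ u, Λ'.γ u = Λ.γ (-u)

/-- Uniform bounds of a knot: `M` bounds the height of the slopes and the Lipschitz constants of
`x`, `y`, `x'`; at every point `η ≤ |x'|` or `η ≤ |y'|`; `c` is a lower bound of the width. -/
structure Bd (Λ : LegKnot) (M η c : ℝ) : Prop where
  yb : ∀ u, |Λ.y u| ≤ M
  xl : ∀ u v, |Λ.x u - Λ.x v| ≤ M * |u - v|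
  yl : ∀ u v, |Λ.y u - Λ.y v| ≤ M * |u - v|
  xd : ∀ u v, |deriv Λ.x u - deriv Λ.x v| ≤ M * |u - v|
  im : ∀ u, η ≤ |deriv Λ.x u| ∨ η ≤ |deriv Λ.y u|
  rg : ∃ u, c ≤ |Λ.x u - Λ.x 0|

/-- Points whose parameters differ by at least `ρ` have distance at least `σ`. -/
def Sg (Λ : LegKnot) (ρ σ : ℝ) : Prop :=
  ∀ u v, ρ ≤ v - u → v - u ≤ 1 - ρ →
    σ ≤ |Λ.x u - Λ.x v| ∨ σ ≤ |Λ.y u - Λ.y v| ∨ σ ≤ |zc Λ u - zc Λ v|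

/-- `N` is large with respect to the constants. -/
structure NL (M η c σ : ℝ) (N : ℕ) : Prop where
  M1 : 1 ≤ M
  η0 : 0 < η
  c0 : 0 < c
  n1 : 1 ≤ N
  n2 : 2 * M ≤ c * N
  n3 : 2 * (4 * M ^ 2 / c ^ 2) * M < η * N
  n4 : 12 * M ≤ η * N
  n5 : (6 + 4 * (4 * M ^ 2 / c ^ 2)) * M ^ 2 < σ * N

/-! ### knots and families -/

/-- BAS: elementary properties of the coordinates. -/
def Stmt_BAS : Prop :=
  ∀ Λ : LegKnot, ContDiff ℝ ∞ Λ.x ∧ ContDiff ℝ ∞ Λ.y ∧ ContDiff ℝ ∞ (zc Λ) ∧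
    (∀ u, Λ.x (u + 1) = Λ.x u) ∧ (∀ u, Λ.y (u + 1) = Λ.y u) ∧ (∀ u, zc Λ (u + 1) = zc Λ u) ∧
    (∀ u, HasDerivAt Λ.x (deriv Λ.x u) u) ∧ (∀ u, HasDerivAt Λ.y (deriv Λ.y u) u) ∧
    (∀ u, HasDerivAt (zc Λ) (Λ.y u * deriv Λ.x u) u) ∧
    (∀ u, deriv Λ.x u ≠ 0 ∨ deriv Λ.y u ≠ 0) ∧
    (∀ u, HasDerivAt Λ.γ (deriv Λ.x u, deriv Λ.y u, Λ.y u * deriv Λ.x u) u)

/-- CTN: the coordinates of a family and their derivatives along the knots are continuous. -/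
def Stmt_CTN : Prop :=
  ∀ K : ℝ → LegKnot, Fam K →
    ContinuousOn (fun q : ℝ × ℝ => (K q.1).γ q.2) (Icc 0 1 ×ˢ univ) ∧
    ContinuousOn (fun q : ℝ × ℝ => (K q.1).x q.2) (Icc 0 1 ×ˢ univ) ∧
    ContinuousOn (fun q : ℝ × ℝ => (K q.1).y q.2) (Icc 0 1 ×ˢ univ) ∧
    ContinuousOn (fun q : ℝ × ℝ => zc (K q.1) q.2) (Icc 0 1 ×ˢ univ) ∧
    ContinuousOn (fun q : ℝ × ℝ => deriv (K q.1).x q.2) (Icc 0 1 ×ˢ univ) ∧
    ContinuousOn (fun q : ℝ × ℝ => deriv (K q.1).y q.2) (Icc 0 1 ×ˢ univ) ∧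
    ContinuousOn (fun q : ℝ × ℝ => deriv (deriv (K q.1).x) q.2) (Icc 0 1 ×ˢ univ)

/-- The upper bounds of a family. -/
def P_BD1 : Prop :=
  ∀ K : ℝ → LegKnot, Fam K → ∃ M : ℝ, 1 ≤ M ∧ ∀ t ∈ Icc (0 : ℝ) 1,
    (∀ u, |(K t).y u| ≤ M) ∧ (∀ u v, |(K t).x u - (K t).x v| ≤ M * |u - v|) ∧
    (∀ u v, |(K t).y u - (K t).y v| ≤ M * |u - v|) ∧
    (∀ u v, |deriv (K t).x u - deriv (K t).x v| ≤ M * |u - v|)

/-- BD1 -/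
def Stmt_BD1 : Prop := Stmt_BAS → Stmt_CTN → P_BD1

/-- The lower bound of `max(|x'|, |y'|)`. -/
def P_BD2 : Prop :=
  ∀ K : ℝ → LegKnot, Fam K → ∃ η : ℝ, 0 < η ∧ ∀ t ∈ Icc (0 : ℝ) 1,
    ∀ u, η ≤ |deriv (K t).x u| ∨ η ≤ |deriv (K t).y u|

/-- BD2 -/
def Stmt_BD2 : Prop := Stmt_BAS → Stmt_CTN → P_BD2

/-- The lower bound of the width. -/
def P_BD3 : Prop :=
  ∀ K : ℝ → LegKnot, Fam K → ∃ c : ℝ, 0 < c ∧ ∀ t ∈ Icc (0 : ℝ) 1,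
    ∃ u, c ≤ |(K t).x u - (K t).x 0|

/-- BD3 -/
def Stmt_BD3 : Prop := Stmt_BAS → Stmt_CTN → P_BD3

/-- The distance of far pairs. -/
def P_SGM : Prop :=
  ∀ K : ℝ → LegKnot, Fam K → ∀ ρ > 0, ∃ σ : ℝ, 0 < σ ∧ ∀ t ∈ Icc (0 : ℝ) 1, Sg (K t) ρ σ

/-- SGM -/
def Stmt_SGM : Prop := Stmt_BAS → Stmt_CTN → P_SGM

/-! ### the polygons of a knot -/

/-- The midpoint estimate. -/
def P_MID : Prop :=
  ∀ (Λ : LegKnot) (M η c : ℝ), Bd Λ M η c → ∀ N : ℕ, 1 ≤ N → ∀ i : ℤ,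
    |y0 Λ N i * (x0 Λ N (i + 1) - x0 Λ N i) -
      (zc Λ (((i : ℝ) + 1) / N) - zc Λ ((i : ℝ) / N))| ≤ M ^ 2 / (N : ℝ) ^ 2

/-- MID -/
def Stmt_MID : Prop := Stmt_BAS → P_MID

/-- The bound of the correction factor, and the denominator. -/
def P_MUB : Prop :=
  ∀ (Λ : LegKnot) (M η c : ℝ), 1 ≤ M → 0 < c → Bd Λ M η c → ∀ N : ℕ, 1 ≤ N → 2 * M ≤ c * N →
    0 < ∑ i ∈ Finset.range N, (x0 Λ N ((i : ℤ) + 1) - x0 Λ N (i : ℤ)) ^ 2 ∧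
    |mu Λ N| ≤ 4 * M ^ 2 / c ^ 2

/-- MUB -/
def Stmt_MUB : Prop := Stmt_BAS → P_MID → P_MUB

/-- PEX: the polygon exists. -/
def Stmt_PEX : Prop := ∀ (Λ : LegKnot) (N : ℕ), 1 ≤ N → ∃ P : Pg N, IsPN Λ N P

/-- The polygon is close to the front of the knot. -/
def P_ZAP : Prop :=
  ∀ (Λ : LegKnot) (M η c : ℝ), 1 ≤ M → 0 < c → Bd Λ M η c → ∀ N : ℕ, 1 ≤ N → 2 * M ≤ c * N →
    ∀ P : Pg N, IsPN Λ N P → ∀ i : ℤ,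
      |P.z i - (zc Λ ((i : ℝ) / N) - zc Λ 0)| ≤ (M ^ 2 + 4 * M ^ 4 / c ^ 2) / N

/-- ZAP -/
def Stmt_ZAP : Prop := Stmt_BAS → P_MID → P_MUB → P_ZAP

/-- HLN: the edges of a component over `e` have the same height at `e`. -/
def Stmt_HLN : Prop :=
  ∀ (N : ℕ) (P : Pg N) (e : ℝ) (p q : ℤ), CompE P e p q → ∀ i ∈ Icc p q, P.l i e = P.l p e

/-- SHF: components can be shifted by a period. -/
def Stmt_SHF : Prop :=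
  ∀ (N : ℕ) (P : Pg N) (e : ℝ) (p q : ℤ), CompE P e p q → CompE P e (p + N) (q + N)

/-- The knot crosses `e` in the parameter interval of every edge of a component. -/
def P_CRS : Prop :=
  ∀ (Λ : LegKnot) (N : ℕ) (P : Pg N), 1 ≤ N → IsPN Λ N P → ∀ (e : ℝ) (p q : ℤ), CompE P e p q →
    ∀ i ∈ Icc p q, ∃ u ∈ Icc ((i : ℝ) / N) (((i : ℝ) + 1) / N), Λ.x u = e

/-- CRS -/
def Stmt_CRS : Prop := Stmt_BAS → P_CRS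

/-- A component over `e` is strictly monotone in `x` or `|x'|` is small on it. -/
def P_ZON : Prop :=
  ∀ (Λ : LegKnot) (M η c : ℝ), Bd Λ M η c → ∀ N : ℕ, 1 ≤ N → ∀ P : Pg N, IsPN Λ N P →
    ∀ (e : ℝ) (p q : ℤ), CompE P e p q →
      (StrictMonoOn P.x (Icc p (q + 1)) ∨ StrictAntiOn P.x (Icc p (q + 1))) ∨
        ∀ u ∈ Icc ((p : ℝ) / N) (((q : ℝ) + 1) / N), |deriv Λ.x u| ≤ 2 * M / N

/-- ZON -/
def Stmt_ZON : Prop := Stmt_BAS → P_ZON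

/-- STM: strict monotonicity on an interval of integers from the successor steps. -/
def Stmt_STM : Prop :=
  ∀ (f : ℤ → ℝ) (p q : ℤ),
    ((∀ i, p ≤ i → i < q → f i < f (i + 1)) → StrictMonoOn f (Icc p q)) ∧
      ((∀ i, p ≤ i → i < q → f (i + 1) < f i) → StrictAntiOn f (Icc p q))

/-- The slopes are strictly monotone where `|x'|` is small. -/
def P_YMO : Prop :=
  ∀ (Λ : LegKnot) (M η c σ : ℝ) (N : ℕ), Bd Λ M η c → NL M η c σ N → ∀ P : Pg N, IsPN Λ N P →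
    ∀ p q : ℤ, (∀ u ∈ Icc ((p : ℝ) / N) (((q : ℝ) + 1) / N), |deriv Λ.x u| < η) →
      StrictMonoOn P.y (Icc p q) ∨ StrictAntiOn P.y (Icc p q)

/-- YMO -/
def Stmt_YMO : Prop := Stmt_BAS → P_MUB → Stmt_STM → P_YMO

/-- The components are monotone. -/
def P_TYP : Prop :=
  ∀ (Λ : LegKnot) (M η c σ : ℝ) (N : ℕ), Bd Λ M η c → NL M η c σ N → ∀ P : Pg N, IsPN Λ N P →
    ∀ e p q, CompE P e p q → Ty P p q

/-- TYP -/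
def Stmt_TYP : Prop := P_ZON → P_YMO → P_TYP

/-- Near components over the same point are in one zone with small `|x'|`. -/
def P_NEA : Prop :=
  ∀ (Λ : LegKnot) (M η c σ : ℝ) (N : ℕ), Bd Λ M η c → NL M η c σ N → ∀ P : Pg N, IsPN Λ N P →
    ∀ (e : ℝ) (p q p' q' : ℤ), CompE P e p q → CompE P e p' q' → q < p' →
      ∀ i ∈ Icc p q, ∀ j ∈ Icc p' q', (j : ℝ) - i ≤ η / (4 * M) * N →
        ∀ u ∈ Icc ((p : ℝ) / N) (((q' : ℝ) + 1) / N), |deriv Λ.x u| < η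

/-- NEA -/
def Stmt_NEA : Prop := Stmt_BAS → P_CRS → P_ZON → P_NEA

/-- SGN: discrete intermediate value argument. -/
def Stmt_SGN : Prop :=
  ∀ (f : ℤ → ℝ) (p q p' q' : ℤ) (s : ℝ), 0 < s → p ≤ q → p' ≤ q' →
    (∀ i ∈ Icc p q, ∀ j ∈ Icc p' q', s ≤ |f i - f j|) →
    (∀ i, |f (i + 1) - f i| < s) →
    (∀ i ∈ Icc p q, ∀ j ∈ Icc p' q', f i < f j) ∨ ∀ i ∈ Icc p q, ∀ j ∈ Icc p' q', f j < f i

/-- Far components with the same front point are ordered. -/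
def P_FAR : Prop :=
  ∀ (Λ : LegKnot) (M η c ρ σ : ℝ) (N : ℕ), Bd Λ M η c → NL M η c σ N → Sg Λ ρ σ →
    ∀ P : Pg N, IsPN Λ N P → ∀ (e : ℝ) (p q p' q' : ℤ), CompE P e p q → CompE P e p' q' →
      P.l p e = P.l p' e →
      (∀ i ∈ Icc p q, ∀ j ∈ Icc p' q', ρ * N ≤ (j : ℝ) - i ∧ (j : ℝ) - i ≤ (1 - ρ) * N) →
      (∀ i ∈ Icc p q, ∀ j ∈ Icc p' q', P.y i < P.y j) ∨
        ∀ i ∈ Icc p q, ∀ j ∈ Icc p' q', P.y j < P.y i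

/-- FAR -/
def Stmt_FAR : Prop := Stmt_BAS → P_MUB → P_ZAP → Stmt_HLN → P_CRS → Stmt_SGN → P_FAR

/-- Separation of components with the same front point. -/
def P_SEP : Prop :=
  ∀ (Λ : LegKnot) (M η c σ : ℝ) (N : ℕ), Bd Λ M η c → NL M η c σ N → Sg Λ (η / (4 * M)) σ →
    ∀ P : Pg N, IsPN Λ N P → ∀ e p q p' q', CompE P e p q → CompE P e p' q' → q < p' →
      q' < p + N → P.l p e = P.l p' e →
      (∀ i ∈ Icc p q, ∀ j ∈ Icc p' q', P.y i < P.y j) ∨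
        ∀ i ∈ Icc p q, ∀ j ∈ Icc p' q', P.y j < P.y i

/-- SEP -/
def Stmt_SEP : Prop := Stmt_SHF → P_YMO → P_NEA → P_FAR → P_SEP

/-- The polygons are embedded. -/
def P_EMB : Prop :=
  ∀ (Λ : LegKnot) (M η c σ : ℝ) (N : ℕ), Bd Λ M η c → NL M η c σ N → Sg Λ (η / (4 * M)) σ →
    ∀ P : Pg N, IsPN Λ N P → Emb P

/-- EMB -/
def Stmt_EMB : Prop := P_MUB → P_TYP → P_SEP → P_EMB

/-! ### paths of polygons -/

/-- A family of knots with embedded polygons gives a path. -/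
def P_PTH : Prop :=
  ∀ (K : ℝ → LegKnot) (N : ℕ), Fam K → 1 ≤ N →
    (∀ t ∈ Icc (0 : ℝ) 1,
      0 < ∑ i ∈ Finset.range N, (x0 (K t) N ((i : ℤ) + 1) - x0 (K t) N (i : ℤ)) ^ 2) →
    (∀ t ∈ Icc (0 : ℝ) 1, ∀ P : Pg N, IsPN (K t) N P → Emb P) →
    ∀ P P' : Pg N, IsPN (K 0) N P → IsPN (K 1) N P' → EPath P P'

/-- PTH -/
def Stmt_PTH : Prop := Stmt_CTN → Stmt_PEX → P_PTH

/-- The ends of a family are joined by a path for large `N`. -/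
def P_FPE : Prop :=
  ∀ Λ Λ' : LegKnot, FP Λ Λ' → ∃ N₀ : ℕ, ∀ N ≥ N₀, ∀ P P' : Pg N,
    IsPN Λ N P → IsPN Λ' N P' → EPath P P'

/-- FPE -/
def Stmt_FPE : Prop := P_BD1 → P_BD2 → P_BD3 → P_SGM → P_MUB → P_EMB → P_PTH → P_FPE

/-! ### change of the parametrisation -/

/-- LFT: knots with the same carrier. -/
def Stmt_LFT : Prop :=
  ∀ Λ Λ' : LegKnot, Λ.carrier = Λ'.carrier →
    ∃ φ : ℝ → ℝ, Continuous φ ∧ ∀ u, Λ.γ u = Λ'.γ (φ u)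

/-- The change of the parameter is smooth. -/
def P_SMT : Prop :=
  ∀ (Λ Λ' : LegKnot) (φ : ℝ → ℝ), Continuous φ → (∀ u, Λ.γ u = Λ'.γ (φ u)) →
    ContDiff ℝ ∞ φ ∧ ∀ u, deriv φ u ≠ 0

/-- SMT -/
def Stmt_SMT : Prop := Stmt_BAS → P_SMT

/-- DEG: the degree is `1` or `-1`. -/
def Stmt_DEG : Prop :=
  ∀ (Λ Λ' : LegKnot) (φ : ℝ → ℝ), ContDiff ℝ ∞ φ → (∀ u, deriv φ u ≠ 0) →
    (∀ u, Λ.γ u = Λ'.γ (φ u)) →
    ((∀ u, 0 < deriv φ u) ∧ ∀ u, φ (u + 1) = φ u + 1) ∨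
      ((∀ u, deriv φ u < 0) ∧ ∀ u, φ (u + 1) = φ u - 1)

/-- RVX: the reversed knot. -/
def Stmt_RVX : Prop := ∀ Λ : LegKnot, ∃ Λ' : LegKnot, Rv Λ Λ'

/-- RVS: the reverse of a stabilisation. -/
def Stmt_RVS : Prop :=
  ∀ Λ' Λ'' Λ₁ Λ₂ : LegKnot, IsStabilization Λ' Λ'' → Rv Λ' Λ₁ → Rv Λ'' Λ₂ → IsStabilization Λ₁ Λ₂

/-- The reverse of a family. -/
def P_RVF : Prop := ∀ Λ Λ' Λ₁ Λ₁' : LegKnot, FP Λ Λ' → Rv Λ Λ₁ → Rv Λ' Λ₁' → FP Λ₁ Λ₁'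

/-- RVF -/
def Stmt_RVF : Prop := Stmt_RVX → P_RVF

/-- PSF: reparametrised knots are the ends of families. -/
def Stmt_PSF : Prop := ∀ Λ Λ' : LegKnot, Pos Λ Λ' → FP Λ Λ' ∧ FP Λ' Λ

/-- Knots with the same carrier. -/
def P_CAR : Prop :=
  ∀ Λ Λ' : LegKnot, Λ.carrier = Λ'.carrier → Pos Λ Λ' ∨
    ∀ Λ₁ : LegKnot, Rv Λ Λ₁ → Pos Λ₁ Λ'

/-- CAR -/
def Stmt_CAR : Prop := Stmt_LFT → P_SMT → Stmt_DEG → P_CAR

/-- FIN: the theorem. -/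
def Stmt_FIN : Prop :=
  Stmt_RVX → Stmt_RVS → P_RVF → Stmt_PSF → P_CAR → Stmt_PEX → P_FPE → T_SM

end LHS
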