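import Pool.Agent.LHS.Stmts

/-!
# Module TYP: the components of the polygons are monotone
-/

namespace LHS

open Set LH LC Filter
open scoped ContDiff Topology

/-- TYP -/
theorem t_TYP : Stmt_TYP := by
  intro hZ hY Λ M η c σ N hB hN P hP e p q hC
  rcases hZ Λ M η c hB N hN.n1 P hP e p q hC with h | h
  · exact Or.inl h
  · right
    refine hY Λ M η c σ N hB hN P hP p q ?_
    intro u hu
    have h1 := h u hu
    have hM := hN.M1
    have hn : (1 : ℝ) ≤ (N : ℝ) := by exact_mod_cast hN.n1
    have hn0 : (0 : ℝ) < (N : ℝ) := by linarith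
    have h4 := hN.n4
    have h2 : 2 * M / (N : ℝ) < η := by
      rw [div_lt_iff₀ hn0]
      nlinarith
    linarith

end LHS
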